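import Pool.Agent.H77.TL.ToolStm

/-!
# Crew TL : parts AR2D and AR2Y (algebraic identities of the numerical form of R2)
-/

set_option autoImplicit false

namespace Pool.Agent.H40.TL

open Pool.MP324

/-- the coefficients `r0 r1 r2 g3` of `RR m w = 1 + μ (r0 + r1 w + r2 w² - g3 w³)` -/
theorem RR_form (m w : ℝ) (hm : 0 < m) :
    let mu := 1 / (m + 1)
    let k1 := (1 + 14 * mu)⁻¹
    let ka := mu * k1
    let g1 := 1 + k1 / 2
    let g2 := ka / 2 - ka * k1 / 2 / 2 / 2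
    let g3 := ka * ka / 2 / 2 / 2
    RR m w = 1 + mu * ((2 * (cc * cc * g2) + 6 * (cc * cc * cc * g3) - cc * g1)
      + w * (g1 - 2 * (cc * g2) - 6 * (cc * cc * g3)) + w ^ 2 * (g2 + 3 * (cc * g3)) - w ^ 3 * g3) := by
  intro mu k1 ka g1 g2 g3
  have h1 : (m + 1) ≠ 0 := by positivity
  have h2 : (m + 15) ≠ 0 := by positivity
  have hka : 1 / (m + 15) = mu * k1 := by
    have : 1 + 14 * mu = (m + 15) / (m + 1) := by
      simp only [mu]; field_simp; ring
    simp only [k1]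
    rw [this]
    simp only [mu]
    field_simp
  have : RR m w = (1 + (mu + (mu * k1) / 2) * w + (mu * (mu * k1) / 2 - (mu * k1) ^ 2 / 8) * w ^ 2
      + (- (mu * (mu * k1) ^ 2 / 8)) * w ^ 3)
      - cc * ((mu + (mu * k1) / 2) + 2 * (mu * (mu * k1) / 2 - (mu * k1) ^ 2 / 8) * w
        + 3 * (- (mu * (mu * k1) ^ 2 / 8)) * w ^ 2)
      + cc ^ 2 * (2 * (mu * (mu * k1) / 2 - (mu * k1) ^ 2 / 8) + 6 * (- (mu * (mu * k1) ^ 2 / 8)) * w)
      - cc ^ 3 * (6 * (- (mu * (mu * k1) ^ 2 / 8))) := by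
    rw [← hka]
    rfl
  rw [this]
  simp only [g1, g2, g3, ka]
  ring

theorem w_form (m : ℝ) (hm : 0 < m) :
    let mu := 1 / (m + 1)
    let rho := (1 + 3 * (mu / 2 / 2))⁻¹
    w m = mu * ((33 / 5) * (mu * mu * (rho * (rho * rho)))) := by
  intro mu rho
  have h1 : (m + 1) ≠ 0 := by positivity
  have h2 : (m + 7 / 4) ≠ 0 := by positivity
  have : rho = (m + 1) / (m + 7 / 4) := by
    have h3 : 1 + 3 * (mu / 2 / 2) = (m + 7 / 4) / (m + 1) := by
      simp only [mu]; field_simp; ring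
    simp only [rho]
    rw [h3, inv_div]
  rw [this]
  simp only [mu, w]
  field_simp

theorem ap_form (m x : ℝ) (hm : 0 < m) : ap m x = (1 / (m + 1)) * (1 - (1 / (m + 1)) * lp x)⁻¹ := by
  have h1 : (m + 1) ≠ 0 := by positivity
  unfold ap
  have : 1 - (1 / (m + 1)) * lp x = (m + 1 - lp x) / (m + 1) := by field_simp
  rw [this, inv_div]
  by_cases h : m + 1 - lp x = 0
  · rw [h]; simp
  · field_simp

theorem am_form (m x : ℝ) (hm : 0 < m) :
    am m x = (1 / (m + 1)) * (1 + (1 / (m + 1)) * (- lm x))⁻¹ := by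
  have h1 : (m + 1) ≠ 0 := by positivity
  unfold am
  have : 1 + (1 / (m + 1)) * (- lm x) = (m + 1 - lm x) / (m + 1) := by field_simp; ring
  rw [this, inv_div]
  by_cases h : m + 1 - lm x = 0
  · rw [h]; simp
  · field_simp

theorem lp_le_one {x : ℝ} (h0 : 0 < x) (h1 : x < 1) : lp x < 1 := by
  unfold Pool.MP324.lp
  rw [Real.logb_lt_iff_lt_rpow (by norm_num) (by linarith)]
  norm_num
  linarith

theorem lp_nonneg {x : ℝ} (h0 : 0 ≤ x) : 0 ≤ lp x := by
  unfold Pool.MP324.lp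
  exact Real.logb_nonneg (by norm_num) (by linarith)

theorem lm_nonpos {x : ℝ} (h0 : 0 ≤ x) (h1 : x < 1) : lm x ≤ 0 := by
  unfold Pool.MP324.lm
  exact Real.logb_nonpos (by norm_num) (by linarith) (by linarith)

theorem AR2D_id (m x : ℝ) (hm : 0 < m) (hx : 0 < x) (hx1 : x < 1) :
    (lp x - f m x) * (1 + x) * RR m (- lm x) + (f m x - lm x) * (1 - x) * RR m (- lp x)
    - (1 - x ^ 2) * RR m 0 * (lp x - lm x) =
    (1 / (m + 1)) * r2D opsR (1 / (m + 1)) x (lp x) (- lm x) cc (Real.log 2) (33 / 5) := by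
  have hlp1 := lp_le_one hx hx1
  have hlp0 := lp_nonneg hx.le
  have hlm0 := lm_nonpos hx.le hx1
  rw [RR_form m (- lm x) hm, RR_form m (- lp x) hm, RR_form m 0 hm]
  have hf : f m x = (1 - w m) * J m x + w m * q x := rfl
  have hJ : J m x = m * ((1 + x) / 2 * lp x * ap m x + (1 - x) / 2 * lm x * am m x) := rfl
  have hw := w_form m hm
  simp only at hw
  have hap := ap_form m x hm
  have ham := am_form m x hm
  have hmu : m * (1 / (m + 1)) = 1 - 1 / (m + 1) := by field_simp; ring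
  have hq : q x = x * x * (2 - x * x) := by unfold q; ring
  have hdp : (1 - (1 / (m + 1)) * lp x) * (1 - (1 / (m + 1)) * lp x)⁻¹ = 1 := by
    apply mul_inv_cancel₀
    have : (1 / (m + 1)) * lp x < 1 := by
      rw [one_div, inv_mul_lt_iff₀ (by linarith)]
      linarith
    linarith
  have hdm : (1 + (1 / (m + 1)) * (- lm x)) * (1 + (1 / (m + 1)) * (- lm x))⁻¹ = 1 := by
    apply mul_inv_cancel₀
    have : 0 ≤ (1 / (m + 1)) * (- lm x) := by
      apply mul_nonneg (by positivity); linarith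
    linarith
  unfold r2D opsR
  simp only
  push_cast
  generalize hmu' : 1 / (m + 1) = mu at *
  generalize hk1 : (1 + 14 * mu)⁻¹ = k1 at *
  generalize hrho : (1 + 3 * (mu / 2 / 2))⁻¹ = rho at *
  generalize hdp' : (1 - mu * lp x)⁻¹ = dp at *
  generalize hdm' : (1 + mu * (- lm x))⁻¹ = dm at *
  generalize hw1 : 33 / 5 * (mu * mu * (rho * (rho * rho))) = w1 at *
  generalize hl : lp x = l at *
  generalize hL : - lm x = L at *
  have hlm : lm x = - L := by linarith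
  rw [hlm] at hJ ⊢
  have hJ2 : J m x = (1 - mu) * ((1 + x) / 2 * (l * dp) - (1 - x) / 2 * (L * dm)) := by
    rw [hJ, hap, ham, ← hmu]; ring
  -- the difference `J - e`
  set Jv := (1 - mu) * ((1 + x) / 2 * (l * dp) - (1 - x) / 2 * (L * dm)) with hJv
  set e := (1 + x) / 2 * l - (1 - x) / 2 * L with he
  have hJe : Jv - e = mu * ((1 - mu) * ((1 + x) / 2 * (l * (l * dp)) + (1 - x) / 2 * (L * (L * dm))) - e) := by
    rw [hJv, he]
    linear_combination (1 - mu) * ((1 + x) / 2 * l) * hdp - (1 - mu) * ((1 - x) / 2 * L) * hdm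
  have hfe : f m x = e + mu * ((1 - mu) * ((1 + x) / 2 * (l * (l * dp)) + (1 - x) / 2 * (L * (L * dm))) - e
      + w1 * (x * x * (2 - x * x) - Jv)) := by
    rw [hf, hw, hJ2, hq]
    linear_combination hJe
  set f1 := (1 - mu) * ((1 + x) / 2 * (l * (l * dp)) + (1 - x) / 2 * (L * (L * dm))) - e
      + w1 * (x * x * (2 - x * x) - Jv) with hf1
  rw [hfe]
  clear_value f1
  rw [he]
  ring

theorem AR2D_proved : S_AR2D := by
  intro m x hm hx hx1 h
  rw [AR2D_id m x hm hx hx1]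
  positivity

/-- `lp` and `lm` in terms of the series `alf`, `bef` -/
theorem lp_lm_series (hS : S_SER) {x : ℝ} (h0 : 0 ≤ x) (h1 : x < 1) :
    Pool.MP324.lp x = x * (cc * alf (x ^ 2)) + x ^ 2 * (-(cc * bef (x ^ 2) / 2)) ∧
    Pool.MP324.lm x = - (x * (cc * alf (x ^ 2))) + x ^ 2 * (-(cc * bef (x ^ 2) / 2)) := by
  obtain ⟨-, -, -, -, -, -, hS⟩ := hS
  obtain ⟨ha, hb⟩ := hS x h0 h1
  have hsum : Real.log (1 + x) + Real.log (1 - x) = Real.log (1 - x ^ 2) := by
    rw [← Real.log_mul (by linarith) (by linarith)]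
    congr 1; ring
  have hl : Real.log (1 + x) = x * alf (x ^ 2) - x ^ 2 * bef (x ^ 2) / 2 := by linarith
  have hl' : Real.log (1 - x) = - (x * alf (x ^ 2)) - x ^ 2 * bef (x ^ 2) / 2 := by linarith
  have h2 : Real.log 2 ≠ 0 := (Real.log_pos (by norm_num)).ne'
  constructor
  · unfold Pool.MP324.lp Real.logb cc
    rw [hl]; field_simp; ring
  · unfold Pool.MP324.lm Real.logb cc
    rw [hl']; field_simp; ring

theorem AR2Y_id (hS : S_SER) (m x : ℝ) (hm : 0 < m) (hx : 0 < x) (hx1 : x < 1) :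
    (lp x - f m x) * (1 + x) * RR m (- lm x) + (f m x - lm x) * (1 - x) * RR m (- lp x)
    - (1 - x ^ 2) * RR m 0 * (lp x - lm x) =
    (2 * x ^ 3 * (1 / (m + 1))) *
      r2Y opsR (1 / (m + 1)) (x ^ 2) (alf (x ^ 2)) (bef (x ^ 2)) cc (Real.log 2) (33 / 5) := by
  have hlp1 := lp_le_one hx hx1
  have hlp0 := lp_nonneg hx.le
  have hlm0 := lm_nonpos hx.le hx1
  obtain ⟨hlp, hlm⟩ := lp_lm_series hS hx.le hx1
  rw [RR_form m (- lm x) hm, RR_form m (- lp x) hm, RR_form m 0 hm]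
  have hf : f m x = (1 - w m) * J m x + w m * q x := rfl
  have hJ : J m x = m * ((1 + x) / 2 * lp x * ap m x + (1 - x) / 2 * lm x * am m x) := rfl
  have hw := w_form m hm
  simp only at hw
  have hap := ap_form m x hm
  have ham := am_form m x hm
  have hmu : m * (1 / (m + 1)) = 1 - 1 / (m + 1) := by field_simp; ring
  have hq : q x = x ^ 2 * (2 - x ^ 2) := by unfold q; ring
  have hdp : (1 - (1 / (m + 1)) * lp x) * (1 - (1 / (m + 1)) * lp x)⁻¹ = 1 := by
    apply mul_inv_cancel₀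
    have : (1 / (m + 1)) * lp x < 1 := by
      rw [one_div, inv_mul_lt_iff₀ (by linarith)]
      linarith
    linarith
  have hdp0 : 0 < 1 - (1 / (m + 1)) * lp x := by
    have : (1 / (m + 1)) * lp x < 1 := by
      rw [one_div, inv_mul_lt_iff₀ (by linarith)]
      linarith
    linarith
  have hdm0 : 0 < 1 + (1 / (m + 1)) * (- lm x) := by
    have : 0 ≤ (1 / (m + 1)) * (- lm x) := by
      apply mul_nonneg (by positivity); linarith
    linarith
  have hdm : (1 + (1 / (m + 1)) * (- lm x)) * (1 + (1 / (m + 1)) * (- lm x))⁻¹ = 1 :=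
    mul_inv_cancel₀ hdm0.ne'
  unfold r2Y opsR
  simp only
  push_cast
  generalize hmu' : 1 / (m + 1) = mu at *
  generalize hk1 : (1 + 14 * mu)⁻¹ = k1 at *
  generalize hrho : (1 + 3 * (mu / 2 / 2))⁻¹ = rho at *
  generalize hdp' : (1 - mu * lp x)⁻¹ = dp at *
  generalize hdm' : (1 + mu * (- lm x))⁻¹ = dm at *
  generalize hw1 : 33 / 5 * (mu * mu * (rho * (rho * rho))) = w1 at *
  generalize hal : alf (x ^ 2) = al at *
  generalize hbe : bef (x ^ 2) = be at *
  generalize hcc : cc = c at *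
  have hl0 : -(c * be / 2) = - (c * be / 2) := rfl
  -- P, R
  have hP : 1 - mu * lp x = (1 + mu * (c * (x ^ 2 * be)) / 2) - x * (mu * (c * al)) := by
    rw [hlp]; ring
  have hM : 1 + mu * (- lm x) = (1 + mu * (c * (x ^ 2 * be)) / 2) + x * (mu * (c * al)) := by
    rw [hlm]; ring
  set P := 1 + mu * (c * (x ^ 2 * be)) / 2 with hPd
  set R := mu * (c * al) with hRd
  have hprod : P * P - x ^ 2 * (R * R) = (1 - mu * lp x) * (1 + mu * (- lm x)) := by
    rw [hP, hM]; ring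
  have hiD : (P * P - x ^ 2 * (R * R))⁻¹ = dp * dm := by
    rw [hprod, mul_inv, hdp', hdm']
  rw [hiD]
  set d0 := P * (dp * dm) with hd0
  set d1 := R * (dp * dm) with hd1
  have e1 : dp = d0 + x * d1 := by
    rw [hd0, hd1]
    rw [hM] at hdm
    linear_combination - dp * hdm
  have e2 : dm = d0 - x * d1 := by
    rw [hd0, hd1]
    rw [hP] at hdp
    linear_combination - dm * hdp
  set l0 := -(c * be / 2) with hl0d
  set ca := c * al with hca
  have hJ2 : J m x = (1 - mu) * (x ^ 2 * (l0 * d0 + ca * d1 + x ^ 2 * (l0 * d1) + ca * d0)) := by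
    rw [hJ, hap, ham, hlp, hlm, e1, e2]
    linear_combination (x ^ 2 * (l0 * d0 + ca * d1 + x ^ 2 * (l0 * d1) + ca * d0)) * hmu
  set L0 := x ^ 2 * (l0 * l0) + ca * ca with hL0
  set L1 := 2 * (l0 * ca) with hL1
  set S := L0 * d0 + x ^ 2 * (L1 * d1 + L0 * d1 + L1 * d0) with hSd
  -- `J - e`
  have hJe : J m x - x ^ 2 * (ca + l0) = mu * (x ^ 2 * ((1 - mu) * S - (ca + l0))) := by
    have hA : (1 + x) / 2 * lp x * dp + (1 - x) / 2 * lm x * dm
        = ((1 + x) / 2 * lp x + (1 - x) / 2 * lm x)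
          + mu * ((1 + x) / 2 * (lp x * lp x * dp) + (1 - x) / 2 * (lm x * lm x * dm)) := by
      linear_combination ((1 + x) / 2 * lp x) * hdp + ((1 - x) / 2 * lm x) * hdm
    have hB : (1 + x) / 2 * lp x + (1 - x) / 2 * lm x = x ^ 2 * (ca + l0) := by
      rw [hlp, hlm]; ring
    have hC : (1 + x) / 2 * (lp x * lp x * dp) + (1 - x) / 2 * (lm x * lm x * dm) = x ^ 2 * S := by
      rw [hlp, hlm, e1, e2, hSd, hL0, hL1]; ring
    have hD : J m x = (1 - mu) * ((1 + x) / 2 * lp x * dp + (1 - x) / 2 * lm x * dm) := by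
      rw [hJ, hap, ham, ← hmu]; ring
    rw [hD, hA, hB, hC]; ring
  set JY := (1 - mu) * (l0 * d0 + ca * d1 + x ^ 2 * (l0 * d1) + ca * d0) with hJY
  have hfe : f m x = x ^ 2 * ((ca + l0) + mu * ((1 - mu) * S - (ca + l0) + w1 * (2 - x ^ 2 - JY))) := by
    have h3 : J m x = x ^ 2 * JY := by rw [hJ2, hJY]; ring
    rw [hf, hw, hq]
    linear_combination hJe - mu * w1 * h3
  set ft := (1 - mu) * S - (ca + l0) + w1 * (2 - x ^ 2 - JY) with hft
  rw [hfe, hlp, hlm]
  clear_value ft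
  rw [hL0, hL1]
  ring

theorem AR2Y_proved (hS : S_SER) : S_AR2Y := by
  intro m x hm hx hx1 h
  rw [AR2Y_id hS m x hm hx hx1]
  positivity

end Pool.Agent.H40.TL
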