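import Pool.Agent.H77.TL.ToolStm
import Pool.Agent.H40.TL.AR2

/-!
# Crew TL : part R2RED (integral comparison)
-/

set_option autoImplicit false

namespace Pool.Agent.H40.TL

open Pool.MP324 MeasureTheory

theorem E_cont : Continuous E := by
  unfold E
  fun_prop

theorem E_log_contOn {a b : ℝ} (ha : 0 < a) (hb : 0 < b) :
    ContinuousOn (fun s => E (Real.logb 2 s)) (Set.uIcc a b) := by
  apply E_cont.comp_continuousOn
  unfold Real.logb
  apply ContinuousOn.div_const
  apply Real.continuousOn_log.mono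
  intro s hs
  have : 0 < s := lt_of_lt_of_le (lt_min ha hb) (Set.mem_uIcc.mp hs |>.elim (fun h => le_trans (min_le_left _ _) h.1) (fun h => le_trans (min_le_right _ _) h.1))
  exact this.ne'

theorem EE_sub {a b : ℝ} (ha : 0 < a) (hb : 0 < b) :
    EE b - EE a = ∫ s in a..b, E (Real.logb 2 s) := by
  unfold EE
  exact intervalIntegral.integral_interval_sub_left
    (E_log_contOn one_pos hb).intervalIntegrable (E_log_contOn one_pos ha).intervalIntegrable

/-- the cubic -/
noncomputable def GG (m w : ℝ) : ℝ :=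
  (1 + 1 / (m + 1) * w) * (1 + 1 / (m + 15) * w / 2 - (1 / (m + 15)) ^ 2 * w ^ 2 / 8)

theorem E_factor {m w : ℝ} (hm : 0 < m) (_hw : -1 ≤ w) :
    E (m + w) = (Real.sqrt (m + 15) * (m + 1)) *
      ((1 + 1 / (m + 1) * w) * Real.sqrt (1 + 1 / (m + 15) * w)) := by
  unfold E
  have h1 : m + w + 15 = (m + 15) * (1 + 1 / (m + 15) * w) := by field_simp; ring
  have h2 : m + w + 1 = (m + 1) * (1 + 1 / (m + 1) * w) := by field_simp; ring
  rw [h1, h2, Real.sqrt_mul (by linarith)]
  ring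

theorem E_ge {m w : ℝ} (hm : 0 < m) (hw : 0 ≤ w) :
    (Real.sqrt (m + 15) * (m + 1)) * GG m w ≤ E (m + w) := by
  rw [E_factor hm (by linarith)]
  unfold GG
  apply mul_le_mul_of_nonneg_left _ (by positivity)
  apply mul_le_mul_of_nonneg_left _ (by positivity)
  set v := 1 / (m + 15) * w with hv
  have hv0 : 0 ≤ v := by positivity
  have h : 1 + v / 2 - v ^ 2 / 8 ≤ Real.sqrt (1 + v) := by
    by_cases h8 : v ≤ 8
    · apply Real.le_sqrt_of_sq_le
      nlinarith [pow_nonneg hv0 3]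
    · have : 1 + v / 2 - v ^ 2 / 8 ≤ 0 := by nlinarith
      exact this.trans (Real.sqrt_nonneg _)
  calc 1 + v / 2 - (1 / (m + 15)) ^ 2 * w ^ 2 / 8 = 1 + v / 2 - v ^ 2 / 8 := by rw [hv]; ring
    _ ≤ _ := h

theorem E_le {m w : ℝ} (hm : 0 < m) (hw1 : -1 ≤ w) (hw : w ≤ 0) :
    E (m + w) ≤ (Real.sqrt (m + 15) * (m + 1)) * GG m w := by
  rw [E_factor hm (by linarith)]
  unfold GG
  apply mul_le_mul_of_nonneg_left _ (by positivity)
  have h1 : 0 ≤ 1 + 1 / (m + 1) * w := by
    have : (1 + 1 / (m + 1) * w) = (m + 1 + w) / (m + 1) := by field_simp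
    rw [this]; apply div_nonneg <;> linarith
  apply mul_le_mul_of_nonneg_left _ h1
  set v := 1 / (m + 15) * w with hv
  have hv0 : v ≤ 0 := mul_nonpos_of_nonneg_of_nonpos (by positivity) hw
  have hv1 : -1 ≤ v := by
    have h2 : v = w / (m + 15) := by rw [hv]; ring
    rw [h2, le_div_iff₀ (by linarith)]; linarith
  have h : Real.sqrt (1 + v) ≤ 1 + v / 2 - v ^ 2 / 8 := by
    apply Real.sqrt_le_iff.mpr
    constructor
    · nlinarith
    · nlinarith [pow_nonneg (neg_nonneg.mpr hv0) 3]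
  calc Real.sqrt (1 + v) ≤ 1 + v / 2 - v ^ 2 / 8 := h
    _ = 1 + v / 2 - (1 / (m + 15)) ^ 2 * w ^ 2 / 8 := by rw [hv]; ring

/-- derivative of `RR` -/
theorem RR_deriv (m w : ℝ) : ∃ D : ℝ, HasDerivAt (fun w => RR m w) D w ∧ RR m w + cc * D = GG m w := by
  set μ := 1 / (m + 1) with hμ
  set κ := 1 / (m + 15) with hκ
  have hR : (fun w => RR m w) = fun w : ℝ => (1 + (μ + κ / 2) * w + (μ * κ / 2 - κ ^ 2 / 8) * w ^ 2
      + (- (μ * κ ^ 2 / 8)) * w ^ 3) - cc * ((μ + κ / 2) + 2 * (μ * κ / 2 - κ ^ 2 / 8) * w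
        + 3 * (- (μ * κ ^ 2 / 8)) * w ^ 2)
    + cc ^ 2 * (2 * (μ * κ / 2 - κ ^ 2 / 8) + 6 * (- (μ * κ ^ 2 / 8)) * w)
      - cc ^ 3 * (6 * (- (μ * κ ^ 2 / 8))) := by
    funext w; rfl
  refine ⟨((μ + κ / 2) + 2 * (μ * κ / 2 - κ ^ 2 / 8) * w
      + 3 * (- (μ * κ ^ 2 / 8)) * w ^ 2) - cc * (2 * (μ * κ / 2 - κ ^ 2 / 8)
        + 6 * (- (μ * κ ^ 2 / 8)) * w)
    + cc ^ 2 * (6 * (- (μ * κ ^ 2 / 8))), ?_, ?_⟩
  · rw [hR]
    have h1 : HasDerivAt (fun w : ℝ => w) 1 w := hasDerivAt_id w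
    have h2 : HasDerivAt (fun w : ℝ => w ^ 2) (2 * w) w := by simpa using hasDerivAt_pow 2 w
    have h3 : HasDerivAt (fun w : ℝ => w ^ 3) (3 * w ^ 2) w := by simpa using hasDerivAt_pow 3 w
    have := (((((h1.const_mul (μ + κ / 2)).const_add 1).add (h2.const_mul (μ * κ / 2 - κ ^ 2 / 8))).add
      (h3.const_mul (- (μ * κ ^ 2 / 8)))).sub
      ((((h1.const_mul (2 * (μ * κ / 2 - κ ^ 2 / 8))).const_add (μ + κ / 2)).add
        (h2.const_mul (3 * (- (μ * κ ^ 2 / 8))))).const_mul cc)).add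
      (((h1.const_mul (6 * (- (μ * κ ^ 2 / 8)))).const_add (2 * (μ * κ / 2 - κ ^ 2 / 8))).const_mul (cc ^ 2))
    have h5 := this.sub_const (cc ^ 3 * (6 * (- (μ * κ ^ 2 / 8))))
    refine h5.congr_deriv ?_
    ring
  · have : RR m w = (1 + (μ + κ / 2) * w + (μ * κ / 2 - κ ^ 2 / 8) * w ^ 2
      + (- (μ * κ ^ 2 / 8)) * w ^ 3) - cc * ((μ + κ / 2) + 2 * (μ * κ / 2 - κ ^ 2 / 8) * w
        + 3 * (- (μ * κ ^ 2 / 8)) * w ^ 2)
    + cc ^ 2 * (2 * (μ * κ / 2 - κ ^ 2 / 8) + 6 * (- (μ * κ ^ 2 / 8)) * w)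
      - cc ^ 3 * (6 * (- (μ * κ ^ 2 / 8))) := rfl
    rw [this]
    unfold GG
    rw [← hμ, ← hκ]
    ring

theorem GG_cont (m : ℝ) : Continuous (GG m) := by
  unfold GG
  fun_prop

theorem int_GG {m t a b : ℝ} (ht : 0 < t) (ha : 0 < a) (hb : 0 < b) :
    ∫ s in a..b, GG m (Real.logb 2 (s / t)) =
      b * RR m (Real.logb 2 (b / t)) - a * RR m (Real.logb 2 (a / t)) := by
  have hl2 : Real.log 2 ≠ 0 := (Real.log_pos (by norm_num)).ne'
  have hpos : ∀ s ∈ Set.uIcc a b, 0 < s := by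
    intro s hs
    exact lt_of_lt_of_le (lt_min ha hb) (Set.mem_uIcc.mp hs |>.elim (fun h => le_trans (min_le_left _ _) h.1) (fun h => le_trans (min_le_right _ _) h.1))
  have hd : ∀ s ∈ Set.uIcc a b, HasDerivAt (fun s => s * RR m (Real.logb 2 (s / t)))
      (GG m (Real.logb 2 (s / t))) s := by
    intro s hs
    have hs0 := hpos s hs
    obtain ⟨D, hD, hDe⟩ := RR_deriv m (Real.logb 2 (s / t))
    have h1 : HasDerivAt (fun s => Real.logb 2 (s / t)) (cc / s) s := by
      have h2 : HasDerivAt (fun s : ℝ => s / t) (1 / t) s := (hasDerivAt_id s).div_const t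
      have h3 := (h2.log (by positivity)).div_const (Real.log 2)
      refine h3.congr_deriv ?_
      unfold cc
      field_simp
    have h4 := hD.comp s h1
    have h5 := (hasDerivAt_id s).mul h4
    refine (h5.congr_deriv ?_)
    simp only [id, Function.comp]
    rw [← hDe]
    field_simp
  rw [intervalIntegral.integral_eq_sub_of_hasDerivAt hd]
  apply ContinuousOn.intervalIntegrable
  apply (GG_cont m).comp_continuousOn
  unfold Real.logb
  apply ContinuousOn.div_const
  apply ContinuousOn.log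
  · fun_prop
  · intro s hs
    have := hpos s hs
    positivity

theorem GGlog_int {m t a b : ℝ} (ht : 0 < t) (ha : 0 < a) (hb : 0 < b) :
    IntervalIntegrable (fun s => GG m (Real.logb 2 (s / t))) volume a b := by
  have hpos : ∀ s ∈ Set.uIcc a b, 0 < s := by
    intro s hs
    exact lt_of_lt_of_le (lt_min ha hb) (Set.mem_uIcc.mp hs |>.elim (fun h => le_trans (min_le_left _ _) h.1) (fun h => le_trans (min_le_right _ _) h.1))
  apply ContinuousOn.intervalIntegrable
  apply (GG_cont m).comp_continuousOn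
  unfold Real.logb
  apply ContinuousOn.div_const
  apply ContinuousOn.log
  · fun_prop
  · intro s hs
    have := hpos s hs
    positivity

/-- lower bound of the right integral -/
theorem int_right {m x : ℝ} (hm : 0 < m) (hx : 0 < x) (hx1 : x < 1) :
    (Real.sqrt (m + 15) * (m + 1)) * ((2:ℝ) ^ m * (1 / (1 - x) * RR m (- lm x) - RR m 0)) ≤
      EE (tm m x) - EE (tt m) := by
  have ht : 0 < (2:ℝ) ^ m := by positivity
  have h1x : 0 < 1 - x := by linarith
  have htm : 0 < tm m x := by unfold tm; positivity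
  have htt : 0 < tt m := by unfold tt; positivity
  have hle : tt m ≤ tm m x := by
    unfold tt tm
    rw [le_div_iff₀ h1x]; nlinarith
  rw [EE_sub htt htm]
  have key : (2:ℝ) ^ m * (1 / (1 - x) * RR m (- lm x) - RR m 0) =
      ∫ s in (tt m)..(tm m x), GG m (Real.logb 2 (s / tt m)) := by
    rw [int_GG htt htt htm]
    have e1 : tt m / tt m = 1 := div_self htt.ne'
    have e2 : tm m x / tt m = (1 - x)⁻¹ := by
      unfold tm tt; field_simp
    rw [e1, e2, Real.logb_one, Real.logb_inv]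
    have e3 : - Real.logb 2 (1 - x) = - lm x := rfl
    rw [e3]
    unfold tm tt
    field_simp
  rw [key, ← intervalIntegral.integral_const_mul]
  apply intervalIntegral.integral_mono_on hle
  · exact (GGlog_int htt htt htm).const_mul _
  · exact (E_log_contOn htt htm).intervalIntegrable
  · intro s hs
    have hs0 : 0 < s := lt_of_lt_of_le htt hs.1
    have hw : 0 ≤ Real.logb 2 (s / tt m) := by
      apply Real.logb_nonneg (by norm_num)
      rw [le_div_iff₀ htt]; linarith [hs.1]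
    have he : Real.logb 2 s = m + Real.logb 2 (s / tt m) := by
      rw [Real.logb_div hs0.ne' htt.ne']
      unfold tt
      rw [Real.logb_rpow (by norm_num) (by norm_num)]
      ring
    rw [he]
    exact E_ge hm hw

/-- upper bound of the left integral -/
theorem int_left {m x : ℝ} (hm : 0 < m) (hx : 0 < x) (hx1 : x < 1) :
    EE (tt m) - EE (tp m x) ≤
    (Real.sqrt (m + 15) * (m + 1)) * ((2:ℝ) ^ m * (RR m 0 - 1 / (1 + x) * RR m (- lp x))) := by
  have ht : 0 < (2:ℝ) ^ m := by positivity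
  have htp : 0 < tp m x := by unfold tp; positivity
  have htt : 0 < tt m := by unfold tt; positivity
  have hle : tp m x ≤ tt m := by
    unfold tt tp
    rw [div_le_iff₀ (by linarith)]; nlinarith
  rw [EE_sub htp htt]
  have key : (2:ℝ) ^ m * (RR m 0 - 1 / (1 + x) * RR m (- lp x)) =
      ∫ s in (tp m x)..(tt m), GG m (Real.logb 2 (s / tt m)) := by
    rw [int_GG htt htp htt]
    have e1 : tt m / tt m = 1 := div_self htt.ne'
    have e2 : tp m x / tt m = (1 + x)⁻¹ := by
      unfold tp tt; field_simp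
    rw [e1, e2, Real.logb_one, Real.logb_inv]
    have e3 : - Real.logb 2 (1 + x) = - lp x := rfl
    rw [e3]
    unfold tp tt
    field_simp
  rw [key, ← intervalIntegral.integral_const_mul]
  apply intervalIntegral.integral_mono_on hle
  · exact (E_log_contOn htp htt).intervalIntegrable
  · exact (GGlog_int htt htp htt).const_mul _
  · intro s hs
    have hs0 : 0 < s := lt_of_lt_of_le htp hs.1
    have hw : Real.logb 2 (s / tt m) ≤ 0 := by
      apply Real.logb_nonpos (by norm_num) (by positivity)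
      rw [div_le_iff₀ htt]; linarith [hs.2]
    have hw1 : -1 ≤ Real.logb 2 (s / tt m) := by
      have : tp m x / tt m ≤ s / tt m := by
        apply div_le_div_of_nonneg_right hs.1 htt.le
      have e2 : tp m x / tt m = (1 + x)⁻¹ := by
        unfold tp tt; field_simp
      rw [e2] at this
      have h2 : (2:ℝ)⁻¹ ≤ (1 + x)⁻¹ := by
        apply inv_anti₀ (by linarith); linarith
      have h3 : Real.logb 2 (2:ℝ)⁻¹ ≤ Real.logb 2 (s / tt m) := by
        apply Real.logb_le_logb_of_le (by norm_num) (by norm_num) (h2.trans this)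
      rw [Real.logb_inv, Real.logb_self_eq_one (by norm_num)] at h3
      exact h3
    have he : Real.logb 2 s = m + Real.logb 2 (s / tt m) := by
      rw [Real.logb_div hs0.ne' htt.ne']
      unfold tt
      rw [Real.logb_rpow (by norm_num) (by norm_num)]
      ring
    rw [he]
    exact E_le hm hw1 hw

theorem x_le_lp {x : ℝ} (h0 : 0 ≤ x) (h1 : x ≤ 1) : x ≤ lp x := by
  have h : (2:ℝ) ^ x ≤ 1 + x := by
    have := rpow_one_add_le_one_add_mul_self (s := 1) (by norm_num) h0 h1
    have e : (1:ℝ) + 1 = 2 := by norm_num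
    rw [e] at this
    linarith
  unfold Pool.MP324.lp
  rw [Real.le_logb_iff_rpow_le (by norm_num) (by linarith)]
  exact h

theorem m0_gt : (2:ℝ) / 3 < m0 := by
  unfold m0
  rw [Real.lt_logb_iff_rpow_lt (by norm_num) (by norm_num)]
  have h : ((2:ℝ) ^ ((2:ℝ) / 3)) ^ (3:ℕ) = 4 := by
    rw [← Real.rpow_natCast, ← Real.rpow_mul (by norm_num)]
    norm_num
  by_contra hc
  push Not at hc
  have : ((8:ℝ) / 5) ^ 3 ≤ ((2:ℝ) ^ ((2:ℝ) / 3)) ^ (3:ℕ) := pow_le_pow_left₀ (by norm_num) hc 3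
  rw [h] at this
  norm_num at this

theorem m_lower {m : ℝ} (p k : ℕ) (hk : 0 < k) {r : ℝ} (hr : 1 ≤ r) (h : r ≤ (2:ℝ) ^ m)
    (hp : (2:ℝ) ^ p ≤ r ^ k) : (p : ℝ) / k ≤ m := by
  have h1 : r ^ k ≤ ((2:ℝ) ^ m) ^ k := pow_le_pow_left₀ (by linarith) h k
  have h2 : ((2:ℝ) ^ m) ^ k = (2:ℝ) ^ (m * k) := by
    rw [Real.rpow_mul (by norm_num), Real.rpow_natCast]
  have h3 : (2:ℝ) ^ (p : ℝ) ≤ (2:ℝ) ^ (m * k) := by
    rw [Real.rpow_natCast, ← h2]; linarith
  have h4 := (Real.rpow_le_rpow_left_iff (by norm_num : (1:ℝ) < 2)).mp h3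
  rw [div_le_iff₀ (by exact_mod_cast hk)]
  exact h4

theorem w_pos {m : ℝ} (hm : 0 < m) : 0 < w m := by
  unfold w; positivity

theorem w_le {m a b : ℝ} (ha : 0 < a) (ham : a ≤ m) (hb : (33 / 5) ≤ b * (a + 7 / 4) ^ 3)
    (hb0 : 0 ≤ b) : w m ≤ b := by
  unfold w
  have hm : 0 < m := lt_of_lt_of_le ha ham
  rw [div_le_iff₀ (by positivity)]
  have : (a + 7 / 4) ^ 3 ≤ (m + 7 / 4) ^ 3 := pow_le_pow_left₀ (by linarith) (by linarith) 3
  nlinarith

/-- `f ≤ lp` and `f ≥ lm` on the domain -/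
theorem f_le_lp {m x : ℝ} (hm : m0 ≤ m) (hx : 0 < x) (hx1 : x < 1) (hd : x ≤ (2:ℝ) ^ m - 1) :
    f m x ≤ lp x ∧ lm x ≤ f m x := by
  have hm1 : 2 / 3 < m := lt_of_lt_of_le m0_gt hm
  have hm0 : 0 < m := by linarith
  have hw0 := w_pos hm0
  have hw1 : w m ≤ 1 / 2 := w_le (a := 2 / 3) (by norm_num) hm1.le (by norm_num) (by norm_num)
  have hlp1 := lp_le_one hx hx1
  have hlp0 := lp_nonneg hx.le
  have hlm0 := lm_nonpos hx.le hx1
  have hxl := x_le_lp hx.le hx1.le
  -- the two terms of `J`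
  have hA : m * ap m x ≤ 1 := by
    unfold ap
    rw [mul_one_div, div_le_one (by linarith)]; linarith
  have hA0 : 0 ≤ m * ap m x := by
    unfold ap
    have : 0 < m + 1 - lp x := by linarith
    positivity
  have hB : m * am m x ≤ 1 := by
    unfold am
    rw [mul_one_div, div_le_one (by linarith)]; linarith
  have hB0 : 0 ≤ m * am m x := by
    unfold am
    have : 0 < m + 1 - lm x := by linarith
    positivity
  have hJ : J m x = (1 + x) / 2 * lp x * (m * ap m x) + (1 - x) / 2 * lm x * (m * am m x) := by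
    unfold J; ring
  have hJ1 : J m x ≤ (1 + x) / 2 * lp x := by
    rw [hJ]
    have h1 : (1 + x) / 2 * lp x * (m * ap m x) ≤ (1 + x) / 2 * lp x := by
      apply mul_le_of_le_one_right _ hA
      positivity
    have h2 : (1 - x) / 2 * lm x * (m * am m x) ≤ 0 := by
      apply mul_nonpos_of_nonpos_of_nonneg _ hB0
      apply mul_nonpos_of_nonneg_of_nonpos _ hlm0
      linarith
    linarith
  have hJ2 : lm x ≤ J m x := by
    rw [hJ]
    have h1 : 0 ≤ (1 + x) / 2 * lp x * (m * ap m x) := by positivity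
    have h2 : lm x ≤ (1 - x) / 2 * lm x * (m * am m x) := by
      have h3 : (1 - x) / 2 * (m * am m x) ≤ 1 := by nlinarith
      nlinarith
    linarith
  have hq0 : 0 ≤ q x := by
    have : q x = x ^ 2 * (2 - x ^ 2) := by unfold q; ring
    rw [this]
    apply mul_nonneg (by positivity)
    nlinarith
  have hKK : ∀ b K : ℝ, w m ≤ b → x + x ^ 2 - 1 / 2 ≤ K → 0 ≤ K → b * K ≤ 1 / 2 →
      0 ≤ 1 / 2 + w m * (1 / 2 - x - x ^ 2) := by
    intro b K h1 h2 h3 h4
    have h5 := mul_le_mul_of_nonneg_left h2 hw0.le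
    have h6 := mul_le_mul_of_nonneg_right h1 h3
    linarith
  constructor
  · have hf : f m x = (1 - w m) * J m x + w m * q x := rfl
    have h1 : f m x ≤ (1 - w m) * ((1 + x) / 2 * lp x) + w m * q x := by
      rw [hf]; nlinarith
    have h2 : w m * q x ≤ w m * (x * (2 - x ^ 2)) * lp x := by
      have : q x = x * (2 - x ^ 2) * x := by unfold q; ring
      rw [this]
      have h3 : 0 ≤ w m * (x * (2 - x ^ 2)) := by
        apply mul_nonneg hw0.le
        apply mul_nonneg hx.le; nlinarith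
      nlinarith
    have h3 : 0 ≤ (1 - x) * (1 / 2 + w m * (1 / 2 - x - x ^ 2)) := by
      apply mul_nonneg (by linarith)
      by_cases c1 : x ≤ 21 / 25
      · have hw2 : w m ≤ 468 / 1000 := w_le (a := 2 / 3) (by norm_num) hm1.le (by norm_num) (by norm_num)
        exact hKK _ (1046 / 1000) hw2 (by nlinarith) (by norm_num) (by norm_num)
      · push Not at c1
        have c2 : (7 : ℝ) / 8 ≤ m := by
          have := m_lower (m := m) 7 8 (by norm_num) (r := 46 / 25) (by norm_num)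
            (by linarith) (by norm_num)
          exact_mod_cast this
        by_cases c3 : x ≤ 19 / 20
        · have hw2 : w m ≤ 73 / 200 := w_le (a := 7 / 8) (by norm_num) c2 (by norm_num) (by norm_num)
          exact hKK _ (1353 / 1000) hw2 (by nlinarith) (by norm_num) (by norm_num)
        · push Not at c3
          have c4 : (24 : ℝ) / 25 ≤ m := by
            have := m_lower (m := m) 24 25 (by norm_num) (r := 39 / 20) (by norm_num)
              (by linarith) (by norm_num)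
            exact_mod_cast this
          have hw2 : w m ≤ 1 / 3 := w_le (a := 24 / 25) (by norm_num) c4 (by norm_num) (by norm_num)
          exact hKK _ (3 / 2) hw2 (by nlinarith) (by norm_num) (by norm_num)
    have h4 : 0 ≤ (1 - x) * (1 / 2 + w m * (1 / 2 - x - x ^ 2)) * lp x := mul_nonneg h3 hlp0
    nlinarith
  · have hf : f m x = (1 - w m) * J m x + w m * q x := rfl
    rw [hf]
    have : 0 ≤ w m * q x := mul_nonneg hw0.le hq0
    nlinarith

theorem R2RED_proved : S_R2RED := by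
  intro m x hm hx hx1 hd h
  obtain ⟨h1, h2⟩ := f_le_lp hm hx hx1 hd
  have hm0 : 0 < m := by linarith [m0_gt]
  have hR := int_right hm0 hx hx1
  have hL := int_left hm0 hx hx1
  set A := Real.sqrt (m + 15) * (m + 1) with hA
  have hA0 : 0 < A := by
    have : 0 < Real.sqrt (m + 15) := Real.sqrt_pos.mpr (by linarith)
    positivity
  have ht : 0 < (2:ℝ) ^ m := by positivity
  refine (mul_le_mul_of_nonneg_left hL (by linarith)).trans
    (le_trans ?_ (mul_le_mul_of_nonneg_left hR (by linarith)))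
  have h1x : 0 < 1 - x := by linarith
  have h1x' : 0 < 1 + x := by linarith
  have key : (lp x - f m x) * (A * ((2:ℝ) ^ m * (1 / (1 - x) * RR m (- lm x) - RR m 0)))
      - (f m x - lm x) * (A * ((2:ℝ) ^ m * (RR m 0 - 1 / (1 + x) * RR m (- lp x)))) =
      (A * (2:ℝ) ^ m) / ((1 - x) * (1 + x)) *
      ((lp x - f m x) * (1 + x) * RR m (- lm x) + (f m x - lm x) * (1 - x) * RR m (- lp x)
    - (1 - x ^ 2) * RR m 0 * (lp x - lm x)) := by
    field_simp
    ring
  have : 0 ≤ (A * (2:ℝ) ^ m) / ((1 - x) * (1 + x)) *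
      ((lp x - f m x) * (1 + x) * RR m (- lm x) + (f m x - lm x) * (1 - x) * RR m (- lp x)
    - (1 - x ^ 2) * RR m 0 * (lp x - lm x)) := by positivity
  linarith

end Pool.Agent.H40.TL
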