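import Pool.Agent.H77.TL.Stm

set_option autoImplicit false

namespace Pool.Agent.H40.TL

open Set
open Pool.MP324 (Phi)

/-- Second difference of `t^(1+r)` at `1`. -/
lemma pow_second_diff {r : ℝ} (hr0 : 0 < r) (hr1 : r < 1) {x : ℝ} (hx0 : 0 ≤ x) (hx1 : x ≤ 1) :
    ((1 + x) ^ (1 + r) + (1 - x) ^ (1 + r)) / 2 - 1 ≤ x ^ 2 * ((2:ℝ) ^ r - 1) := by
  set k : ℝ → ℝ := fun x => ((2:ℝ) ^ r - 1) * x ^ 2 - (((1 + x) ^ (1 + r) + (1 - x) ^ (1 + r)) / 2 - 1) with hk
  set k1 : ℝ → ℝ := fun x => 2 * ((2:ℝ) ^ r - 1) * x - (1 + r) / 2 * ((1 + x) ^ r - (1 - x) ^ r) with hk1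
  set h : ℝ → ℝ := fun x => (1 + x) ^ (r - 1) + (1 - x) ^ (r - 1) with hh
  set k2 : ℝ → ℝ := fun x => 2 * ((2:ℝ) ^ r - 1) - (1 + r) / 2 * r * h x with hk2
  have dk : ∀ x ∈ Ioo (0:ℝ) 1, HasDerivAt k (k1 x) x := by
    intro x hx
    have e1 : HasDerivAt (fun x : ℝ => 1 + x) 1 x := by simpa using (hasDerivAt_id x).const_add 1
    have e2 : HasDerivAt (fun x : ℝ => 1 - x) (-1) x := by simpa using (hasDerivAt_id x).const_sub 1
    have p1 := e1.rpow_const (p := 1 + r) (Or.inl (by linarith [hx.1]))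
    have p2 := e2.rpow_const (p := 1 + r) (Or.inl (by linarith [hx.2]))
    have p3 := ((hasDerivAt_pow 2 x).const_mul ((2:ℝ) ^ r - 1)).sub
      (((p1.add p2).div_const 2).sub_const 1)
    refine p3.congr_deriv ?_
    simp only [hk1, show (1 + r - 1) = r by ring]
    push_cast
    ring
  have dk1 : ∀ x ∈ Ico (0:ℝ) 1, HasDerivAt k1 (k2 x) x := by
    intro x hx
    have e1 : HasDerivAt (fun x : ℝ => 1 + x) 1 x := by simpa using (hasDerivAt_id x).const_add 1
    have e2 : HasDerivAt (fun x : ℝ => 1 - x) (-1) x := by simpa using (hasDerivAt_id x).const_sub 1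
    have p1 := e1.rpow_const (p := r) (Or.inl (by linarith [hx.1]))
    have p2 := e2.rpow_const (p := r) (Or.inl (by linarith [hx.2]))
    have p3 := ((hasDerivAt_id x).const_mul (2 * ((2:ℝ) ^ r - 1))).sub
      ((p1.sub p2).const_mul ((1 + r) / 2))
    refine p3.congr_deriv ?_
    simp only [hk2, hh]
    ring
  have hmono : ∀ s t : ℝ, 0 ≤ s → s < t → t < 1 → h s ≤ h t := by
    intro s t hs hst ht
    have dh : ∀ x ∈ Icc s t, HasDerivAt h ((r-1) * ((1 + x) ^ (r - 1 - 1) - (1 - x) ^ (r - 1 - 1))) x := by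
      intro x hx
      have e1 : HasDerivAt (fun x : ℝ => 1 + x) 1 x := by simpa using (hasDerivAt_id x).const_add 1
      have e2 : HasDerivAt (fun x : ℝ => 1 - x) (-1) x := by simpa using (hasDerivAt_id x).const_sub 1
      have p1 := e1.rpow_const (p := r - 1) (Or.inl (by linarith [hx.1]))
      have p2 := e2.rpow_const (p := r - 1) (Or.inl (by linarith [hx.2]))
      refine (p1.add p2).congr_deriv ?_
      ring
    obtain ⟨c, hc, hc'⟩ := exists_hasDerivAt_eq_slope h _ hst
      (fun x hx => (dh x hx).continuousAt.continuousWithinAt)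
      (fun x hx => dh x ⟨hx.1.le, hx.2.le⟩)
    have hcpos : (1 + c) ^ (r - 1 - 1) ≤ (1 - c) ^ (r - 1 - 1) := by
      apply Real.rpow_le_rpow_of_nonpos
      · linarith [hc.2]
      · linarith [hc.1]
      · linarith
    have h3 : 0 ≤ (r-1) * ((1 + c) ^ (r - 1 - 1) - (1 - c) ^ (r - 1 - 1)) := by nlinarith
    rw [hc', le_div_iff₀ (by linarith)] at h3
    linarith
  have hkc : Continuous k := by
    have c1 : Continuous fun x : ℝ => (1 + x) ^ (1 + r) :=
      (continuous_const.add continuous_id).rpow_const (fun x => Or.inr (by linarith))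
    have c2 : Continuous fun x : ℝ => (1 - x) ^ (1 + r) :=
      (continuous_const.sub continuous_id).rpow_const (fun x => Or.inr (by linarith))
    exact (continuous_const.mul (continuous_pow 2)).sub (((c1.add c2).div_const 2).sub continuous_const)
  have hk1c : ContinuousOn k1 (Icc 0 1) := by
    have c1 : Continuous fun x : ℝ => (1 + x) ^ r :=
      (continuous_const.add continuous_id).rpow_const (fun x => Or.inr (by linarith))
    have c2 : Continuous fun x : ℝ => (1 - x) ^ r :=
      (continuous_const.sub continuous_id).rpow_const (fun x => Or.inr (by linarith))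
    exact ((continuous_const.mul continuous_id).sub (continuous_const.mul (c1.sub c2))).continuousOn
  have hk0 : k 0 = 0 := by simp [hk]
  have hk11 : k 1 = 0 := by
    have : (0:ℝ) ^ (1 + r) = 0 := Real.zero_rpow (by linarith)
    have h2 : (2:ℝ) ^ (1 + r) = 2 * (2:ℝ) ^ r := by
      rw [Real.rpow_add (by norm_num), Real.rpow_one]
    simp only [hk, sub_self, this, show (1:ℝ) + 1 = 2 by norm_num, h2]
    ring
  have hk10 : k1 0 = 0 := by simp [hk1]
  have goal : 0 ≤ k x := by
    by_contra hneg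
    push Not at hneg
    have hx0' : 0 < x := by
      rcases eq_or_lt_of_le hx0 with h0 | h0
      · rw [← h0, hk0] at hneg; exact absurd hneg (lt_irrefl 0)
      · exact h0
    have hx1' : x < 1 := by
      rcases eq_or_lt_of_le hx1 with h0 | h0
      · rw [h0, hk11] at hneg; exact absurd hneg (lt_irrefl 0)
      · exact h0
    obtain ⟨a, ha, ha'⟩ := exists_hasDerivAt_eq_slope k k1 hx0' hkc.continuousOn
      (fun y hy => dk y ⟨hy.1, hy.2.trans hx1'⟩)
    obtain ⟨b, hb, hb'⟩ := exists_hasDerivAt_eq_slope k k1 hx1' hkc.continuousOn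
      (fun y hy => dk y ⟨hx0'.trans hy.1, hy.2⟩)
    have ha2 : k1 a < 0 := by
      rw [ha', hk0]; apply div_neg_of_neg_of_pos <;> linarith
    have hb2 : 0 < k1 b := by
      rw [hb', hk11]; apply div_pos <;> linarith
    have hab : a < b := ha.2.trans hb.1
    obtain ⟨c, hc, hc'⟩ := exists_hasDerivAt_eq_slope k1 k2 ha.1
      (hk1c.mono (Icc_subset_Icc le_rfl (by linarith [ha.2])))
      (fun y hy => dk1 y ⟨hy.1.le, by linarith [hy.2, ha.2]⟩)
    obtain ⟨d, hd, hd'⟩ := exists_hasDerivAt_eq_slope k1 k2 hab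
      (hk1c.mono (Icc_subset_Icc ha.1.le (by linarith [hb.2])))
      (fun y hy => dk1 y ⟨by linarith [hy.1, ha.1], by linarith [hy.2, hb.2]⟩)
    have hc2 : k2 c < 0 := by
      rw [hc', hk10]; apply div_neg_of_neg_of_pos <;> linarith [ha.1]
    have hd2 : 0 < k2 d := by
      rw [hd']; apply div_pos <;> linarith
    have hcd := hmono c d hc.1.le (hc.2.trans hd.1) (by linarith [hd.2, hb.2])
    simp only [hk2] at hc2 hd2
    nlinarith [mul_nonneg (mul_nonneg (show (0:ℝ) ≤ (1 + r) / 2 by linarith) hr0.le) (sub_nonneg.mpr hcd)]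
  simp only [hk] at goal
  linarith

/-- The mixture kernel of `Phi`. -/
noncomputable def kern (b r : ℝ) : ℝ := 2 * Real.log 2 * (b * (b / 2) ^ r)

lemma kern_cont {b : ℝ} (hb : 0 ≤ b) : Continuous (kern b) := by
  unfold kern
  rcases eq_or_lt_of_le hb with h | h
  · rw [← h]; simp; exact continuous_const
  · exact continuous_const.mul (continuous_const.mul (Real.continuous_const_rpow (by positivity)))

lemma Phi_eq {b : ℝ} (hb : 0 ≤ b) (hb1 : b ≤ 1) : Phi b = ∫ r in (0:ℝ)..1, kern b r := by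
  rcases eq_or_lt_of_le hb with h | h
  · rw [← h]; simp [Phi, kern]
  · have hb2 : 0 < b / 2 := by positivity
    have hlog : Real.log (b / 2) < 0 := Real.log_neg hb2 (by linarith)
    have hint : ∫ r in (0:ℝ)..1, kern b r =
        (2 * Real.log 2 * b / Real.log (b/2) * (b/2) ^ (1:ℝ)) -
        (2 * Real.log 2 * b / Real.log (b/2) * (b/2) ^ (0:ℝ)) := by
      apply intervalIntegral.integral_eq_sub_of_hasDerivAt
        (f := fun r => 2 * Real.log 2 * b / Real.log (b/2) * (b/2) ^ r)
      · intro r _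
        have h1 := (Real.hasStrictDerivAt_const_rpow hb2 r).hasDerivAt
        refine (h1.const_mul (2 * Real.log 2 * b / Real.log (b/2))).congr_deriv ?_
        unfold kern
        have hl3 : Real.log (b/2) ≠ 0 := hlog.ne
        field_simp
      · exact (kern_cont hb).intervalIntegrable _ _
    rw [hint, Real.rpow_one, Real.rpow_zero]
    unfold Phi Real.logb
    have e : Real.log (2 / b) = - Real.log (b / 2) := by
      rw [← Real.log_inv]; congr 1; field_simp
    rw [e]
    have hl2 : Real.log 2 ≠ 0 := (Real.log_pos (by norm_num)).ne'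
    have hl3 : Real.log (b/2) ≠ 0 := hlog.ne
    field_simp
    ring

lemma Phi_zero : Phi 0 = 0 := by simp [Phi]

lemma Phi_one : Phi 1 = 1 := by
  unfold Phi
  rw [show (2:ℝ)/1 = 2 by norm_num, Real.logb_self_eq_one (by norm_num)]
  norm_num

lemma kern_eq {b : ℝ} (hb : 0 ≤ b) {c : ℝ} (hc : 0 ≤ c) (r : ℝ) :
    kern (b * c) r = 2 * Real.log 2 * (b * (b/2) ^ r) * (c * c ^ r) := by
  unfold kern
  rw [show b * c / 2 = (b/2) * c by ring, Real.mul_rpow (by positivity) hc]
  ring

lemma Phi_symm_diff {c : ℝ} (hc0 : 0 ≤ c) (hc1 : c ≤ 1/2) : Phi c + 1 - 2 * c ≤ Phi (1 - c) := by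
  have h1 : Phi c + (1 - 2 * c) * Phi 1 ≤ Phi (1 - c) := by
    have i1 := (kern_cont hc0).intervalIntegrable (μ := MeasureTheory.volume) 0 1
    have c2 : Continuous fun r => (1 - 2 * c) * kern 1 r :=
      continuous_const.mul (kern_cont (b := 1) (by norm_num))
    have i2 := c2.intervalIntegrable (μ := MeasureTheory.volume) 0 1
    have L1 : (∫ r in (0:ℝ)..1, kern c r) + (1 - 2 * c) * (∫ r in (0:ℝ)..1, kern 1 r) =
        ∫ r in (0:ℝ)..1, (kern c r + (1 - 2 * c) * kern 1 r) := by
      rw [intervalIntegral.integral_add i1 i2, intervalIntegral.integral_const_mul]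
    rw [Phi_eq hc0 (by linarith), Phi_eq (b := 1) (by norm_num) le_rfl,
      Phi_eq (b := 1 - c) (by linarith) (by linarith), L1]
    apply intervalIntegral.integral_mono_on (by norm_num)
    · exact ((kern_cont hc0).add c2).intervalIntegrable _ _
    · exact (kern_cont (by linarith)).intervalIntegrable _ _
    · intro r hr
      have hk1 := kern_eq (b := 1) (by norm_num) hc0 r
      have hk2 := kern_eq (b := 1) (by norm_num) (c := 1 - c) (by linarith) r
      rw [one_mul] at hk1 hk2
      rw [hk1, hk2]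
      have hk3 : kern 1 r = 2 * Real.log 2 * (1 * (1/2) ^ r) := rfl
      rw [hk3]
      have hpos : 0 ≤ 2 * Real.log 2 * (1 * ((1:ℝ)/2) ^ r) := by
        have := Real.log_pos (show (1:ℝ) < 2 by norm_num)
        positivity
      have hconc := Real.concaveOn_rpow hr.1 hr.2
      -- at the point 1 - c = (c/(1-c)) * c + ((1-2c)/(1-c)) * 1
      have hne : (1 - c) ≠ 0 := by linarith
      have hpos1 : 0 < 1 - c := by linarith
      have h2 := hconc.2 (show c ∈ Ici (0:ℝ) from hc0) (show (1:ℝ) ∈ Ici (0:ℝ) from by simp)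
        (show 0 ≤ c/(1-c) by positivity) (show 0 ≤ (1-2*c)/(1-c) from div_nonneg (by linarith) hpos1.le)
        (by field_simp; ring)
      simp only [smul_eq_mul, Real.one_rpow] at h2
      rw [show c / (1 - c) * c + (1 - 2 * c) / (1 - c) * 1 = 1 - c by field_simp; ring] at h2
      have h3 : c * c ^ r + (1 - 2 * c) ≤ (1 - c) * (1 - c) ^ r := by
        have := mul_le_mul_of_nonneg_left h2 hpos1.le
        rw [show (1 - c) * (c / (1 - c) * c ^ r + (1 - 2 * c) / (1 - c) * 1) = c * c ^ r + (1 - 2 * c) by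
          field_simp] at this
        exact this
      nlinarith [mul_le_mul_of_nonneg_left h3 hpos]
  rw [Phi_one] at h1
  linarith

lemma Phi_second_diff {b x : ℝ} (hb0 : 0 ≤ b) (hb1 : b ≤ 1/2) (hx0 : 0 ≤ x) (hx1 : x ≤ 1) :
    (Phi (b * (1 + x)) + Phi (b * (1 - x))) / 2 - Phi b ≤ x ^ 2 * (Phi (2 * b) / 2 - Phi b) := by
  have a1 : 0 ≤ b * (1 + x) := by positivity
  have a2 : 0 ≤ b * (1 - x) := mul_nonneg hb0 (by linarith)
  have a3 : b * (1 + x) ≤ 1 := by nlinarith
  have a4 : b * (1 - x) ≤ 1 := by nlinarith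
  rw [Phi_eq a1 a3, Phi_eq a2 a4, Phi_eq hb0 (by linarith), Phi_eq (b := 2 * b) (by linarith) (by linarith)]
  have i1 := (kern_cont a1).intervalIntegrable (μ := MeasureTheory.volume) 0 1
  have i2 := (kern_cont a2).intervalIntegrable (μ := MeasureTheory.volume) 0 1
  have i3 := (kern_cont hb0).intervalIntegrable (μ := MeasureTheory.volume) 0 1
  have i4 := (kern_cont (b := 2 * b) (by linarith)).intervalIntegrable (μ := MeasureTheory.volume) 0 1
  have L1 : ((∫ r in (0:ℝ)..1, kern (b * (1 + x)) r) + ∫ r in (0:ℝ)..1, kern (b * (1 - x)) r) / 2 -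
      (∫ r in (0:ℝ)..1, kern b r) =
      ∫ r in (0:ℝ)..1, ((kern (b * (1 + x)) r + kern (b * (1 - x)) r) / 2 - kern b r) := by
    rw [intervalIntegral.integral_sub ((i1.add i2).div_const 2) i3, intervalIntegral.integral_div,
      intervalIntegral.integral_add i1 i2]
  have L2 : x ^ 2 * ((∫ r in (0:ℝ)..1, kern (2 * b) r) / 2 - ∫ r in (0:ℝ)..1, kern b r) =
      ∫ r in (0:ℝ)..1, (x ^ 2 * (kern (2 * b) r / 2 - kern b r)) := by
    rw [intervalIntegral.integral_const_mul, intervalIntegral.integral_sub (i4.div_const 2) i3,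
      intervalIntegral.integral_div]
  rw [L1, L2]
  apply intervalIntegral.integral_mono_on (by norm_num)
  · exact ((((kern_cont a1).add (kern_cont a2)).div_const 2).sub (kern_cont hb0)).intervalIntegrable _ _
  · exact (continuous_const.mul (((kern_cont (b := 2 * b) (by linarith)).div_const 2).sub
      (kern_cont hb0))).intervalIntegrable _ _
  · intro r hr
    rw [kern_eq hb0 (by linarith : (0:ℝ) ≤ 1 + x), kern_eq hb0 (by linarith : (0:ℝ) ≤ 1 - x),
      show 2 * b = b * 2 by ring, kern_eq hb0 (by norm_num : (0:ℝ) ≤ 2)]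
    have hk3 : kern b r = 2 * Real.log 2 * (b * (b/2) ^ r) := rfl
    rw [hk3]
    set K := 2 * Real.log 2 * (b * (b/2) ^ r) with hK
    have hpos : 0 ≤ K := by
      have := Real.log_pos (show (1:ℝ) < 2 by norm_num)
      positivity
    have key : ((1 + x) * (1 + x) ^ r + (1 - x) * (1 - x) ^ r) / 2 - 1 ≤ x ^ 2 * (2 ^ r - 1) := by
      rcases eq_or_lt_of_le hr.1 with h0 | h0
      · rw [← h0]; simp
      rcases eq_or_lt_of_le hr.2 with h1 | h1
      · rw [h1]; simp only [Real.rpow_one]; nlinarith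
      · have := pow_second_diff h0 h1 hx0 hx1
        rw [Real.rpow_add (by linarith), Real.rpow_one] at this
        rcases eq_or_lt_of_le hx1 with h2 | h2
        · rw [h2] at this ⊢
          simp only [sub_self, Real.zero_rpow (show (1 + r) ≠ 0 by linarith)] at this
          simpa using this
        · rw [Real.rpow_add (show (0:ℝ) < 1 - x by linarith), Real.rpow_one] at this
          exact this
    nlinarith [mul_le_mul_of_nonneg_left key hpos]

lemma Phi_convex {b x : ℝ} (hb0 : 0 ≤ b) (hb1 : b ≤ 1/2) (hx0 : 0 ≤ x) (hx1 : x ≤ 1) :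
    0 ≤ (Phi (b * (1 + x)) + Phi (b * (1 - x))) / 2 - Phi b := by
  have a1 : 0 ≤ b * (1 + x) := by positivity
  have a2 : 0 ≤ b * (1 - x) := mul_nonneg hb0 (by linarith)
  have a3 : b * (1 + x) ≤ 1 := by nlinarith
  have a4 : b * (1 - x) ≤ 1 := by nlinarith
  rw [Phi_eq a1 a3, Phi_eq a2 a4, Phi_eq hb0 (by linarith)]
  have i1 := (kern_cont a1).intervalIntegrable (μ := MeasureTheory.volume) 0 1
  have i2 := (kern_cont a2).intervalIntegrable (μ := MeasureTheory.volume) 0 1
  have i3 := (kern_cont hb0).intervalIntegrable (μ := MeasureTheory.volume) 0 1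
  have L1 : ((∫ r in (0:ℝ)..1, kern (b * (1 + x)) r) + ∫ r in (0:ℝ)..1, kern (b * (1 - x)) r) / 2 -
      (∫ r in (0:ℝ)..1, kern b r) =
      ∫ r in (0:ℝ)..1, ((kern (b * (1 + x)) r + kern (b * (1 - x)) r) / 2 - kern b r) := by
    rw [intervalIntegral.integral_sub ((i1.add i2).div_const 2) i3, intervalIntegral.integral_div,
      intervalIntegral.integral_add i1 i2]
  rw [L1]
  apply intervalIntegral.integral_nonneg (by norm_num)
  intro r hr
  rw [kern_eq hb0 (by linarith : (0:ℝ) ≤ 1 + x), kern_eq hb0 (by linarith : (0:ℝ) ≤ 1 - x)]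
  have hk3 : kern b r = 2 * Real.log 2 * (b * (b/2) ^ r) := rfl
  rw [hk3]
  set K := 2 * Real.log 2 * (b * (b/2) ^ r) with hK
  have hpos : 0 ≤ K := by
    have := Real.log_pos (show (1:ℝ) < 2 by norm_num)
    positivity
  have hc := convexOn_rpow (p := 1 + r) (by linarith [hr.1])
  have h2 := hc.2 (show 1 + x ∈ Ici (0:ℝ) from by simp; linarith)
    (show 1 - x ∈ Ici (0:ℝ) from by simp; linarith) (show (0:ℝ) ≤ 1/2 by norm_num)
    (show (0:ℝ) ≤ 1/2 by norm_num) (by norm_num)
  simp only [smul_eq_mul] at h2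
  rw [show (1:ℝ) / 2 * (1 + x) + 1 / 2 * (1 - x) = 1 by ring, Real.one_rpow] at h2
  have e1 : (1 + x) ^ (1 + r) = (1 + x) * (1 + x) ^ r := by
    rw [Real.rpow_add (by linarith), Real.rpow_one]
  have e2 : (1 - x) ^ (1 + r) = (1 - x) * (1 - x) ^ r := by
    rcases eq_or_lt_of_le hx1 with h | h
    · rw [h]; simp [Real.zero_rpow (show (1 + r) ≠ 0 by linarith [hr.1])]
    · rw [Real.rpow_add (by linarith), Real.rpow_one]
  rw [e1, e2] at h2
  nlinarith [mul_le_mul_of_nonneg_left h2 hpos]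

lemma sq_le_Phi {b : ℝ} (hb0 : 0 ≤ b) (hb1 : b ≤ 1) : b ^ 2 ≤ Phi b := by
  rcases eq_or_lt_of_le hb0 with h | h
  · rw [← h, Phi_zero]; norm_num
  · unfold Phi
    have hl : 0 < Real.logb 2 (2 / b) := by
      apply Real.logb_pos (by norm_num)
      rw [lt_div_iff₀ h]; linarith
    rw [le_div_iff₀ hl]
    -- log2 (2/b) <= 2/b - 1
    have h1 : Real.logb 2 (2 / b) ≤ 2 / b - 1 := by
      have e : Real.logb 2 (2/b) = 1 - Real.logb 2 b := by
        rw [Real.logb_div (by norm_num) h.ne', Real.logb_self_eq_one (by norm_num)]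
      rw [e]
      -- - log b <= 2 log 2 (1/b - 1)
      have h2 : Real.log (1/b) ≤ 1/b - 1 := Real.log_le_sub_one_of_pos (by positivity)
      rw [Real.log_div (by norm_num) h.ne', Real.log_one, zero_sub] at h2
      unfold Real.logb
      have hL : 0 < Real.log 2 := Real.log_pos (by norm_num)
      have hL2 : (1:ℝ)/2 < Real.log 2 := by linarith [Real.log_two_gt_d9]
      have h3 : - (Real.log b / Real.log 2) ≤ 2 * (1/b - 1) := by
        rw [← neg_div, div_le_iff₀ hL]
        have : 0 ≤ 1/b - 1 := by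
          rw [sub_nonneg, le_div_iff₀ h]; linarith
        nlinarith
      have : 2 / b = 2 * (1/b) := by ring
      linarith
    have : b ^ 2 * (2 / b - 1) = b * (2 - b) := by field_simp
    nlinarith [mul_le_mul_of_nonneg_left h1 (sq_nonneg b)]

/-- The defining identity of `Phi`: equality for subcubes. -/
lemma Phi_identity {b : ℝ} (hb0 : 0 < b) (hb1 : b < 1) :
    (- Real.logb 2 b) * (Phi (2 * b) / 2 - Phi b) = Phi b - b ^ 2 := by
  have hm : 0 < - Real.logb 2 b := by
    have := Real.logb_neg (b := 2) (by norm_num) hb0 hb1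
    linarith
  unfold Phi
  have e1 : Real.logb 2 (2 / (2 * b)) = - Real.logb 2 b := by
    rw [show 2 / (2 * b) = b⁻¹ by field_simp, Real.logb_inv]
  have e2 : Real.logb 2 (2 / b) = 1 + - Real.logb 2 b := by
    rw [Real.logb_div (by norm_num) hb0.ne', Real.logb_self_eq_one (by norm_num)]; ring
  rw [e1, e2]
  set m := - Real.logb 2 b with hm'
  have h1 : (1:ℝ) + m ≠ 0 := by positivity
  have h2 : m ≠ 0 := hm.ne'
  field_simp
  ring

lemma half_inv_le {b : ℝ} (hb0 : 1/4 ≤ b) (hb1 : b ≤ 1/2) : 1 / (2 * b) ≤ - Real.logb 2 b := by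
  have hpos : 0 < b := by linarith
  have hconc := strictConcaveOn_log_Ioi.concaveOn
  -- t = 1/b in [2,4]
  set t := 1 / b with ht
  have ht2 : 2 ≤ t := by rw [ht, le_div_iff₀ hpos]; linarith
  have ht4 : t ≤ 4 := by rw [ht, div_le_iff₀ hpos]; linarith
  have h := hconc.2 (show (2:ℝ) ∈ Ioi (0:ℝ) from by simp) (show (4:ℝ) ∈ Ioi (0:ℝ) from by simp)
    (show 0 ≤ (4 - t)/2 by linarith) (show 0 ≤ (t - 2)/2 by linarith) (by ring)
  simp only [smul_eq_mul] at h
  rw [show (4 - t) / 2 * 2 + (t - 2) / 2 * 4 = t by ring] at h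
  have h4 : Real.log 4 = 2 * Real.log 2 := by
    rw [show (4:ℝ) = 2 ^ 2 by norm_num, Real.log_pow]; norm_num
  rw [h4] at h
  have hL : 0 < Real.log 2 := Real.log_pos (by norm_num)
  have e : - Real.logb 2 b = Real.log t / Real.log 2 := by
    unfold Real.logb
    rw [ht, one_div, Real.log_inv]; ring
  rw [e, le_div_iff₀ hL]
  have : 1 / (2 * b) = t / 2 := by rw [ht]; field_simp
  rw [this]
  nlinarith

lemma Phi_le_final {b : ℝ} (hb0 : 0 ≤ b) (hb1 : b < 1) :
    Phi b ≤ 2 * (b / Real.logb 2 (1 / b)) := by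
  rcases eq_or_lt_of_le hb0 with h | h
  · rw [← h, Phi_zero]; simp
  · have hm : 0 < - Real.logb 2 b := by
      have := Real.logb_neg (b := 2) (by norm_num) h hb1
      linarith
    unfold Phi
    have e1 : Real.logb 2 (1 / b) = - Real.logb 2 b := by
      rw [one_div, Real.logb_inv]
    have e2 : Real.logb 2 (2 / b) = 1 + - Real.logb 2 b := by
      rw [Real.logb_div (by norm_num) h.ne', Real.logb_self_eq_one (by norm_num)]; ring
    rw [e1, e2]
    set m := - Real.logb 2 b with hm'
    have h1 : (0:ℝ) < 1 + m := by positivity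
    rw [show 2 * (b / m) = (2 * b) / m by ring, div_le_div_iff₀ h1 hm]
    nlinarith [mul_pos h hm, mul_pos h h]

end Pool.Agent.H40.TL
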