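import Pool.Agent.H40.TL.Sets
import Pool.Agent.H40.TL.PhiL

set_option autoImplicit false

namespace Pool.Agent.H40.TL

open Finset Function
open Pool.MP324 (bias mm Phi jj S_T S_R1)

variable {n : ℕ}

/-- The increment of `Phi` along coordinate `i`. -/
noncomputable def JJ (B : Finset (Fin n → Bool)) (i : Fin n) : ℝ :=
  (Phi (mu (cyl i true B)) + Phi (mu (cyl i false B))) / 2 - Phi (mu B)

lemma JJ_eq (B : Finset (Fin n → Bool)) (i : Fin n) :
    JJ B i = (Phi (mu B * (1 + |bias B i|)) + Phi (mu B * (1 - |bias B i|))) / 2 - Phi (mu B) := by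
  unfold JJ
  rw [mu_cyl_true, mu_cyl_false]
  rcases abs_cases (bias B i) with ⟨h, _⟩ | ⟨h, _⟩ <;> rw [h]
  rw [sub_neg_eq_add, ← sub_eq_add_neg, add_comm (Phi (mu B * (1 + bias B i)))]

lemma JJ_nonneg (B : Finset (Fin n → Bool)) (hB : mu B ≤ 1/2) (i : Fin n) : 0 ≤ JJ B i := by
  rw [JJ_eq]
  exact Phi_convex (mu_nonneg B) hB (abs_nonneg _) (abs_bias_le_one B i)

lemma mu_pos_of_nonempty {B : Finset (Fin n → Bool)} (h : B.Nonempty) : 0 < mu B := by
  unfold mu
  have : 0 < B.card := Finset.card_pos.mpr h
  positivity

/-- The level one inequality for `Phi`. -/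
theorem level_one (hT : S_T) (hR1 : S_R1) (S : Finset (Fin n)) (B : Finset (Fin n → Bool))
    (hB : mu B ≤ 1/2) : ∑ i ∈ S, JJ B i ≤ Phi (mu B) - mu B ^ 2 := by
  have hle : ∑ i ∈ S, JJ B i ≤ ∑ i, JJ B i :=
    Finset.sum_le_sum_of_subset_of_nonneg (Finset.subset_univ S) (fun i _ _ => JJ_nonneg B hB i)
  refine hle.trans ?_
  rcases Finset.eq_empty_or_nonempty B with h0 | hne
  · subst h0
    have hz : mu (∅ : Finset (Fin n → Bool)) = 0 := by simp [mu]
    have : ∀ i, JJ (∅ : Finset (Fin n → Bool)) i = 0 := by
      intro i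
      rw [JJ_eq, hz]; simp [Phi_zero]
    simp_rw [this]
    rw [hz, Phi_zero]; simp
  · have hpos := mu_pos_of_nonempty hne
    have hlt1 : mu B < 1 := by linarith
    have hmm : mm B = - Real.logb 2 (mu B) := rfl
    by_cases hq : 1/4 ≤ mu B
    · -- Parseval
      have h1 : ∀ i, JJ B i ≤ (bias B i) ^ 2 * (Phi (2 * mu B) / 2 - Phi (mu B)) := by
        intro i
        rw [JJ_eq, ← sq_abs (bias B i)]
        exact Phi_second_diff hpos.le hB (abs_nonneg _) (abs_bias_le_one B i)
      have h2 := Finset.sum_le_sum (fun i (_ : i ∈ (Finset.univ : Finset (Fin n))) => h1 i)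
      rw [← Finset.sum_mul] at h2
      have h3 := sum_bias_sq B hpos
      have h4 := half_inv_le hq hB
      have h5 := Phi_identity hpos hlt1
      have h6 : 0 ≤ Phi (2 * mu B) / 2 - Phi (mu B) := by
        have hm : 0 < - Real.logb 2 (mu B) := by
          have := Real.logb_neg (b := 2) (by norm_num) hpos hlt1
          linarith
        have h7 : 0 ≤ Phi (mu B) - mu B ^ 2 := by linarith [sq_le_Phi hpos.le hlt1.le]
        rw [← h5] at h7
        exact nonneg_of_mul_nonneg_right h7 hm
      rw [← h5]
      refine h2.trans ?_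
      exact mul_le_mul_of_nonneg_right (h3.trans h4) h6
    · push Not at hq
      have hm2 : 2 ≤ mm B := by
        rw [hmm]
        have : Real.logb 2 (mu B) ≤ Real.logb 2 (1/4) :=
          Real.logb_le_logb_of_le (by norm_num) hpos hq.le
        have h4 : Real.logb 2 (1/4) = -2 := by
          rw [show (1:ℝ)/4 = 2 ^ (-2 : ℝ) by
            rw [Real.rpow_neg (by norm_num)]; norm_num]
          rw [Real.logb_rpow (by norm_num) (by norm_num)]
        linarith
      have hb : (2:ℝ) ^ (- mm B) = mu B := by
        rw [hmm, neg_neg, Real.rpow_logb (by norm_num) (by norm_num) hpos]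
      have hP : 0 ≤ Phi (mu B) - mu B ^ 2 := by linarith [sq_le_Phi hpos.le hlt1.le]
      -- strictly positive
      have hT' := hT n B hne
      have hmpos : 0 < mm B := by linarith
      have hkey : ∀ i, mm B * JJ B i ≤ (Phi (mu B) - mu B ^ 2) * Pool.MP324.f (mm B) |bias B i| := by
        intro i
        have h1 := hR1 (mm B) |bias B i| hm2 (abs_nonneg _) (abs_bias_le_one B i)
        unfold jj at h1
        rw [hb] at h1
        rcases eq_or_lt_of_le hP with h0 | h0
        · -- Phi = mu^2 impossible but handle: use identity bound JJ <= x^2 * 0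
          have h5 := Phi_identity hpos hlt1
          have h6 : Phi (2 * mu B) / 2 - Phi (mu B) = 0 := by
            rw [← h0] at h5
            rcases mul_eq_zero.mp h5 with h7 | h7
            · rw [hmm] at hmpos; linarith
            · exact h7
          have h8 := Phi_second_diff (x := |bias B i|) hpos.le hB (abs_nonneg _) (abs_bias_le_one B i)
          rw [h6, mul_zero] at h8
          rw [← h0, zero_mul, JJ_eq]
          exact mul_nonpos_of_nonneg_of_nonpos hmpos.le h8
        · rw [div_le_iff₀ h0, ← JJ_eq] at h1
          linarith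
      have hsum := Finset.sum_le_sum (fun i (_ : i ∈ (Finset.univ : Finset (Fin n))) => hkey i)
      rw [← Finset.mul_sum, ← Finset.mul_sum] at hsum
      have h3 : mm B * ∑ i, JJ B i ≤ mm B * (Phi (mu B) - mu B ^ 2) := by
        refine hsum.trans ?_
        rw [mul_comm (mm B)]
        exact mul_le_mul_of_nonneg_left hT' hP
      exact le_of_mul_le_mul_left h3 hmpos

/-- The energy of an indicator is at most `Phi` of the measure. -/
theorem G_le (hT : S_T) (hR1 : S_R1) (k : ℕ) : ∀ (S : Finset (Fin n)) (B : Finset (Fin n → Bool)),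
    S.card = k → G k S (ind B) ≤ Phi (mu B) := by
  induction k with
  | zero =>
      intro S B _
      simp only [G, E_ind]
      exact sq_le_Phi (mu_nonneg B) (mu_le_one B)
  | succ k ih =>
      have claimA : ∀ (S : Finset (Fin n)) (B : Finset (Fin n → Bool)), S.card = k + 1 →
          mu B ≤ 1/2 → G (k+1) S (ind B) ≤ Phi (mu B) := by
        intro S B hS hB
        simp only [G, E_ind, R_ind]
        rw [div_le_iff₀ (by positivity)]
        have h1 : ∀ i ∈ S, (G k (S.erase i) (ind (cyl i true B)) + G k (S.erase i) (ind (cyl i false B))) / 2 ≤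
            JJ B i + Phi (mu B) := by
          intro i hi
          have hc : (S.erase i).card = k := by rw [Finset.card_erase_of_mem hi, hS]; rfl
          have a := ih (S.erase i) (cyl i true B) hc
          have b := ih (S.erase i) (cyl i false B) hc
          unfold JJ
          linarith
        have h2 := Finset.sum_le_sum h1
        rw [Finset.sum_add_distrib, Finset.sum_const, hS] at h2
        simp only [nsmul_eq_mul, Nat.cast_add, Nat.cast_one] at h2
        have h3 := level_one hT hR1 S B hB
        linarith
      intro S B hS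
      by_cases hB : mu B ≤ 1/2
      · exact claimA S B hS hB
      · push Not at hB
        have hc : mu Bᶜ ≤ 1/2 := by rw [mu_compl]; linarith
        have h1 := claimA S Bᶜ hS hc
        have h2 := G_compl (k+1) S (ind Bᶜ) hS
        have h3 : (fun z => 1 - ind Bᶜ z) = ind B := by
          rw [← ind_compl, compl_compl]
        rw [h3, E_ind] at h2
        have h4 := Phi_symm_diff (mu_nonneg Bᶜ) hc
        have h5 : 1 - mu Bᶜ = mu B := by rw [mu_compl]; ring
        rw [h5] at h4
        rw [h2]; linarith

/-- The set of `i`-boundary points. -/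
def bd (A : Finset (Fin n → Bool)) (i : Fin n) : Finset (Fin n → Bool) :=
  Finset.univ.filter (fun x => ¬ (x ∈ A ↔ Function.update x i (!(x i)) ∈ A))

lemma D_ind_le (A : Finset (Fin n → Bool)) (i : Fin n) (z : Fin n → Bool) :
    |D i (ind A) z| ≤ (1/2) * ind (bd A i) z := by
  have hR : ∀ c, R i c (ind A) z = ind A (update z i c) := fun c => rfl
  unfold D
  rw [hR, hR]
  by_cases hb : z ∈ bd A i
  · have : ind (bd A i) z = 1 := by simp [ind, hb]
    rw [this]
    unfold ind
    split_ifs <;> norm_num
  · have hz : ind (bd A i) z = 0 := by simp [ind, hb]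
    rw [hz]
    have h1 : z ∈ A ↔ update z i (!(z i)) ∈ A := by
      unfold bd at hb
      simp only [Finset.mem_filter, Finset.mem_univ, true_and, not_not] at hb
      exact hb
    have h2 : ind A (update z i true) = ind A (update z i false) := by
      by_cases hzi : z i = true
      · have e1 : update z i true = z := by rw [← hzi]; exact update_eq_self i z
        rw [hzi, Bool.not_true] at h1
        rw [e1]
        unfold ind
        by_cases hA : z ∈ A
        · simp [hA, h1.mp hA]
        · have h3 : update z i false ∉ A := fun h => hA (h1.mpr h)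
          simp [hA, h3]
      · have hzi' : z i = false := by simpa using hzi
        have e1 : update z i false = z := by rw [← hzi']; exact update_eq_self i z
        rw [hzi', Bool.not_false] at h1
        rw [e1]
        unfold ind
        by_cases hA : z ∈ A
        · simp [hA, h1.mp hA]
        · have h3 : update z i true ∉ A := fun h => hA (h1.mpr h)
          simp [hA, h3]
    rw [h2]; simp

/-- RED: the level one inequality (T) and (R1) imply Talagrand's inequality with constant 2. -/
theorem RED_proved (hT : S_T) (hR1 : S_R1) :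
    ∀ (n : ℕ) (A : Finset (Fin n → Bool)),
      0 < A.card → A.card < 2 ^ n →
      (∃ i : Fin n,
          ((Finset.univ.filter (fun (x : Fin n → Bool) =>
              ¬ (x ∈ A ↔ Function.update x i (!(x i)) ∈ A))).card : ℝ) / 2 ^ n = 1) ∨
      2 * ((A.card : ℝ) / 2 ^ n) * (1 - (A.card : ℝ) / 2 ^ n) ≤
        ∑ i : Fin n,
          (((Finset.univ.filter (fun (x : Fin n → Bool) =>
              ¬ (x ∈ A ↔ Function.update x i (!(x i)) ∈ A))).card : ℝ) / 2 ^ n) /
            Real.logb 2 (1 / (((Finset.univ.filter (fun (x : Fin n → Bool) =>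
              ¬ (x ∈ A ↔ Function.update x i (!(x i)) ∈ A))).card : ℝ) / 2 ^ n)) := by
  intro n A _ _
  by_cases hex : ∃ i : Fin n, mu (bd A i) = 1
  · left; exact hex
  · right
    push Not at hex
    have hlt : ∀ i, mu (bd A i) < 1 := fun i => lt_of_le_of_ne (mu_le_one _) (hex i)
    have hvar := var_eq n (Finset.univ : Finset (Fin n)) (ind A) (by simp)
      (fun i hi => absurd (Finset.mem_univ i) hi)
    have hsq : (fun z => ind A z ^ 2) = ind A := by
      funext z; unfold ind; split_ifs <;> norm_num
    rw [hsq, E_ind] at hvar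
    have hG : ∀ i : Fin n, G (n-1) (Finset.univ.erase i) (D i (ind A)) ≤
        (1/2) * (mu (bd A i) / Real.logb 2 (1 / mu (bd A i))) := by
      intro i
      have h1 := G_mono (n-1) (Finset.univ.erase i) (D i (ind A)) (fun z => (1/2) * ind (bd A i) z)
        (D_ind_le A i)
      rw [G_mul] at h1
      have h2 := G_le hT hR1 (n-1) (Finset.univ.erase i) (bd A i) (by
        rw [Finset.card_erase_of_mem (Finset.mem_univ i), Finset.card_univ, Fintype.card_fin])
      have h3 := Phi_le_final (mu_nonneg (bd A i)) (hlt i)
      linarith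
    have hsum := Finset.sum_le_sum (fun i (_ : i ∈ (Finset.univ : Finset (Fin n))) => hG i)
    rw [← hvar, ← Finset.mul_sum] at hsum
    have hfin : 2 * mu A * (1 - mu A) ≤ ∑ i, mu (bd A i) / Real.logb 2 (1 / mu (bd A i)) := by
      nlinarith [hsum]
    exact hfin

end Pool.Agent.H40.TL
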