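import Mathlib

set_option autoImplicit false

namespace Pool.Agent.H40.TL

open Finset Function

variable {n : ℕ}

/-- Mean of a function over the cube. -/
noncomputable def E (g : (Fin n → Bool) → ℝ) : ℝ := (∑ z, g z) / 2 ^ n

/-- Restriction of a function: coordinate `i` is set to `c`. -/
def R (i : Fin n) (c : Bool) (g : (Fin n → Bool) → ℝ) : (Fin n → Bool) → ℝ :=
  fun z => g (update z i c)

/-- Discrete derivative. -/
noncomputable def D (i : Fin n) (g : (Fin n → Bool) → ℝ) : (Fin n → Bool) → ℝ :=
  fun z => (R i true g z - R i false g z) / 2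

/-- Flip coordinate `i`. -/
def flip (i : Fin n) : Equiv.Perm (Fin n → Bool) where
  toFun z := update z i (!z i)
  invFun z := update z i (!z i)
  left_inv z := by simp
  right_inv z := by simp

lemma R_add (i : Fin n) (g : (Fin n → Bool) → ℝ) (z : Fin n → Bool) :
    R i true g z + R i false g z = g z + g (flip i z) := by
  unfold R flip
  simp only [Equiv.coe_fn_mk]
  cases h : z i
  · have h1 : update z i false = z := by rw [← h]; exact update_eq_self i z
    simp only [Bool.not_false]
    rw [h1]; ring
  · have h1 : update z i true = z := by rw [← h]; exact update_eq_self i z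
    simp only [Bool.not_true]
    rw [h1]

lemma E_avg (i : Fin n) (g : (Fin n → Bool) → ℝ) :
    E g = (E (R i true g) + E (R i false g)) / 2 := by
  unfold E
  have h : ∑ z, R i true g z + ∑ z, R i false g z = 2 * ∑ z, g z := by
    rw [← Finset.sum_add_distrib]
    simp_rw [R_add]
    rw [Finset.sum_add_distrib, Equiv.sum_comp (flip i) g]
    ring
  have : (2:ℝ)^n ≠ 0 := by positivity
  field_simp
  linarith

lemma E_D (i : Fin n) (g : (Fin n → Bool) → ℝ) :
    E (D i g) = (E (R i true g) - E (R i false g)) / 2 := by
  unfold E D
  rw [← Finset.sum_div, Finset.sum_sub_distrib]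
  ring

lemma E_mono {g h : (Fin n → Bool) → ℝ} (H : ∀ z, g z ≤ h z) : E g ≤ E h := by
  unfold E
  apply div_le_div_of_nonneg_right (Finset.sum_le_sum fun z _ => H z) (by positivity)

lemma E_nonneg {g : (Fin n → Bool) → ℝ} (H : ∀ z, 0 ≤ g z) : 0 ≤ E g := by
  unfold E
  exact div_nonneg (Finset.sum_nonneg fun z _ => H z) (by positivity)

lemma E_abs_le {g h : (Fin n → Bool) → ℝ} (H : ∀ z, |g z| ≤ h z) : |E g| ≤ E h := by
  unfold E
  rw [abs_div, abs_of_pos (show (0:ℝ) < 2^n by positivity)]
  apply div_le_div_of_nonneg_right _ (by positivity)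
  exact (Finset.abs_sum_le_sum_abs _ _).trans (Finset.sum_le_sum fun z _ => H z)

lemma E_const (c : ℝ) : E (fun _ : Fin n → Bool => c) = c := by
  unfold E
  simp

/-- The energy `sum_T hat g(T)^2 / (|T| + 1)` by recursion (used with `k = S.card`). -/
noncomputable def G : ℕ → Finset (Fin n) → ((Fin n → Bool) → ℝ) → ℝ
  | 0, _, g => (E g) ^ 2
  | (k+1), S, g => ((E g) ^ 2 +
      ∑ i ∈ S, (G k (S.erase i) (R i true g) + G k (S.erase i) (R i false g)) / 2) / ((k:ℝ) + 2)

lemma G_mono (k : ℕ) : ∀ (S : Finset (Fin n)) (g h : (Fin n → Bool) → ℝ), (∀ z, |g z| ≤ h z) →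
    G k S g ≤ G k S h := by
  induction k with
  | zero =>
      intro S g h H
      simp only [G]
      exact sq_le_sq' (by linarith [(abs_le.mp (E_abs_le H)).1]) (abs_le.mp (E_abs_le H)).2
  | succ k ih =>
      intro S g h H
      simp only [G]
      apply div_le_div_of_nonneg_right _ (by positivity)
      have h1 : E g ^ 2 ≤ E h ^ 2 :=
        sq_le_sq' (by linarith [(abs_le.mp (E_abs_le H)).1]) (abs_le.mp (E_abs_le H)).2
      have h2 : ∀ i ∈ S, (G k (S.erase i) (R i true g) + G k (S.erase i) (R i false g)) / 2 ≤
          (G k (S.erase i) (R i true h) + G k (S.erase i) (R i false h)) / 2 := by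
        intro i _
        have a := ih (S.erase i) (R i true g) (R i true h) (fun z => H _)
        have b := ih (S.erase i) (R i false g) (R i false h) (fun z => H _)
        linarith
      linarith [Finset.sum_le_sum h2]

lemma E_mul (c : ℝ) (g : (Fin n → Bool) → ℝ) : E (fun z => c * g z) = c * E g := by
  unfold E
  rw [← Finset.mul_sum]
  ring

lemma G_mul (c : ℝ) (k : ℕ) : ∀ (S : Finset (Fin n)) (g : (Fin n → Bool) → ℝ),
    G k S (fun z => c * g z) = c ^ 2 * G k S g := by
  induction k with
  | zero => intro S g; simp only [G, E_mul]; ring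
  | succ k ih =>
      intro S g
      have hR : ∀ (i : Fin n) (b : Bool), R i b (fun z => c * g z) = fun z => c * R i b g z := by
        intro i b; rfl
      simp only [G, E_mul, hR, ih]
      rw [mul_div_assoc', mul_add, Finset.mul_sum]
      congr 2
      · ring
      · apply Finset.sum_congr rfl
        intro i _
        ring

lemma E_one_sub (g : (Fin n → Bool) → ℝ) : E (fun z => 1 - g z) = 1 - E g := by
  unfold E
  rw [Finset.sum_sub_distrib]
  simp
  field_simp

lemma G_compl (k : ℕ) : ∀ (S : Finset (Fin n)) (g : (Fin n → Bool) → ℝ), S.card = k →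
    G k S (fun z => 1 - g z) = 1 - 2 * E g + G k S g := by
  induction k with
  | zero => intro S g _; simp only [G, E_one_sub]; ring
  | succ k ih =>
      intro S g hS
      have hR : ∀ (i : Fin n) (b : Bool), R i b (fun z => 1 - g z) = fun z => 1 - R i b g z := by
        intro i b; rfl
      simp only [G, E_one_sub, hR]
      have h1 : ∑ i ∈ S, (G k (S.erase i) (fun z => 1 - R i true g z) +
            G k (S.erase i) (fun z => 1 - R i false g z)) / 2 =
          ((k:ℝ) + 1) * (1 - 2 * E g) + ∑ i ∈ S, (G k (S.erase i) (R i true g) +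
            G k (S.erase i) (R i false g)) / 2 := by
        have h2 : ∀ i ∈ S, (G k (S.erase i) (fun z => 1 - R i true g z) +
            G k (S.erase i) (fun z => 1 - R i false g z)) / 2 = (1 - 2 * E g) +
            (G k (S.erase i) (R i true g) + G k (S.erase i) (R i false g)) / 2 := by
          intro i hi
          have hc : (S.erase i).card = k := by rw [Finset.card_erase_of_mem hi, hS]; rfl
          rw [ih _ _ hc, ih _ _ hc, E_avg i g]
          ring
        rw [Finset.sum_congr rfl h2, Finset.sum_add_distrib, Finset.sum_const, hS]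
        simp only [nsmul_eq_mul, Nat.cast_add, Nat.cast_one]
      rw [h1]
      have : (k:ℝ) + 2 ≠ 0 := by positivity
      field_simp
      ring

lemma R_comm {i j : Fin n} (hij : i ≠ j) (c d : Bool) (g : (Fin n → Bool) → ℝ) :
    R i c (R j d g) = R j d (R i c g) := by
  funext z
  simp only [R]
  rw [update_comm hij]

lemma R_D {i j : Fin n} (hij : i ≠ j) (c : Bool) (g : (Fin n → Bool) → ℝ) :
    R j c (D i g) = D i (R j c g) := by
  funext z
  simp only [D, R]
  rw [update_comm hij, update_comm hij]

lemma const_of_inv (g : (Fin n → Bool) → ℝ) (h : ∀ i z c, g (update z i c) = g z) :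
    ∀ z z', g z = g z' := by
  intro z z'
  have : ∀ T : Finset (Fin n), g (T.piecewise z z') = g z' := by
    intro T
    induction T using Finset.induction_on with
    | empty => simp
    | insert a T ha ih => rw [Finset.piecewise_insert, h, ih]
  have h2 := this Finset.univ
  simpa using h2

/-- The variance is the sum of the energies of the derivatives. -/
theorem var_eq (k : ℕ) : ∀ (S : Finset (Fin n)) (g : (Fin n → Bool) → ℝ), S.card = k →
    (∀ i, i ∉ S → ∀ z c, g (update z i c) = g z) →
    E (fun z => g z ^ 2) - (E g) ^ 2 = ∑ i ∈ S, G (k-1) (S.erase i) (D i g) := by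
  induction k with
  | zero =>
      intro S g hS hg
      have hS' : S = ∅ := Finset.card_eq_zero.mp hS
      subst hS'
      simp only [Finset.sum_empty]
      have hc := const_of_inv g (fun i z c => hg i (by simp) z c)
      have h0 : g = fun _ => g (fun _ => true) := by
        funext z; exact hc z _
      rw [h0, E_const, E_const]; ring
  | succ k ih =>
      intro S g hS hg
      -- total variance
      have hvar : ∀ j, (E (fun z => (R j true g z) ^ 2) - (E (R j true g)) ^ 2 +
          (E (fun z => (R j false g z) ^ 2) - (E (R j false g)) ^ 2)) / 2 =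
          E (fun z => g z ^ 2) - (E g) ^ 2 - (E (D j g)) ^ 2 := by
        intro j
        have h1 := E_avg j (fun z => g z ^ 2)
        have h2 := E_avg j g
        have h3 := E_D j g
        have e1 : R j true (fun z => g z ^ 2) = fun z => (R j true g z) ^ 2 := rfl
        have e2 : R j false (fun z => g z ^ 2) = fun z => (R j false g z) ^ 2 := rfl
        rw [e1, e2] at h1
        rw [h1, h2, h3]; ring
      -- expand G
      have hG : ∀ i ∈ S, ((k:ℝ) + 1) * G k (S.erase i) (D i g) = (E (D i g)) ^ 2 +
          ∑ j ∈ S.erase i, (G (k-1) ((S.erase i).erase j) (R j true (D i g)) +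
            G (k-1) ((S.erase i).erase j) (R j false (D i g))) / 2 := by
        intro i hi
        cases k with
        | zero =>
            have hc : (S.erase i).card = 0 := by rw [Finset.card_erase_of_mem hi, hS]
            have : S.erase i = ∅ := Finset.card_eq_zero.mp hc
            rw [this]
            simp [G]
        | succ k =>
            simp only [G, Nat.add_sub_cancel]
            push_cast
            have : (k:ℝ) + 1 + 1 = (k:ℝ) + 2 := by ring
            rw [this]
            have h2 : (k:ℝ) + 2 ≠ 0 := by positivity
            field_simp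
      have hsum : ∑ i ∈ S, ((k:ℝ) + 1) * G k (S.erase i) (D i g) =
          ((k:ℝ) + 1) * (E (fun z => g z ^ 2) - (E g) ^ 2) := by
        rw [Finset.sum_congr rfl hG, Finset.sum_add_distrib]
        have hswap : ∑ i ∈ S, ∑ j ∈ S.erase i,
            (G (k-1) ((S.erase i).erase j) (R j true (D i g)) +
              G (k-1) ((S.erase i).erase j) (R j false (D i g))) / 2 =
            ∑ j ∈ S, ∑ i ∈ S.erase j,
            (G (k-1) ((S.erase j).erase i) (D i (R j true g)) +
              G (k-1) ((S.erase j).erase i) (D i (R j false g))) / 2 := by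
          rw [Finset.sum_sigma', Finset.sum_sigma']
          refine Finset.sum_bij' (fun x _ => ⟨x.2, x.1⟩) (fun x _ => ⟨x.2, x.1⟩) ?_ ?_ ?_ ?_ ?_
          · rintro ⟨i, j⟩ h
            simp only [Finset.mem_sigma, Finset.mem_erase] at h ⊢
            exact ⟨h.2.2, h.2.1.symm, h.1⟩
          · rintro ⟨i, j⟩ h
            simp only [Finset.mem_sigma, Finset.mem_erase] at h ⊢
            exact ⟨h.2.2, h.2.1.symm, h.1⟩
          · rintro ⟨i, j⟩ _; rfl
          · rintro ⟨i, j⟩ _; rfl
          · rintro ⟨i, j⟩ h
            simp only [Finset.mem_sigma, Finset.mem_erase] at h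
            simp only
            rw [R_D (Ne.symm h.2.1), R_D (Ne.symm h.2.1), Finset.erase_right_comm]
        rw [hswap]
        have hin : ∀ j ∈ S, ∑ i ∈ S.erase j,
            (G (k-1) ((S.erase j).erase i) (D i (R j true g)) +
              G (k-1) ((S.erase j).erase i) (D i (R j false g))) / 2 =
            E (fun z => g z ^ 2) - (E g) ^ 2 - (E (D j g)) ^ 2 := by
          intro j hj
          have hc : (S.erase j).card = k := by rw [Finset.card_erase_of_mem hj, hS]; rfl
          have hinv : ∀ c, ∀ i, i ∉ S.erase j → ∀ z d, R j c g (update z i d) = R j c g z := by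
            intro c i hi z d
            simp only [R]
            by_cases hij : i = j
            · subst hij; simp
            · have hi' : i ∉ S := fun h => hi (Finset.mem_erase.mpr ⟨hij, h⟩)
              rw [update_comm hij, hg i hi']
          rw [← hvar j, ih _ _ hc (hinv true), ih _ _ hc (hinv false), ← Finset.sum_add_distrib,
            Finset.sum_div]
        rw [Finset.sum_congr rfl hin, Finset.sum_sub_distrib, Finset.sum_const, hS]
        simp only [nsmul_eq_mul]
        push_cast
        ring
      rw [← Finset.mul_sum] at hsum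
      have hk : (k:ℝ) + 1 ≠ 0 := by positivity
      have := mul_left_cancel₀ hk hsum
      simp only [Nat.add_sub_cancel]
      exact this.symm

end Pool.Agent.H40.TL
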