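import Pool.Agent.H40.TL.R2Red

/-!
# Crew TL : part R2E (inequality R2 near `x = 1`)
-/

set_option autoImplicit false

namespace Pool.Agent.H40.TL

open Pool.MP324 MeasureTheory

/-- primitive of an affine function of `log₂ (s/t)` -/
theorem int_aff {t a b p r : ℝ} (ht : 0 < t) (ha : 0 < a) (hb : 0 < b) :
    ∫ s in a..b, (p + r * Real.logb 2 (s / t)) =
      b * (p + r * (Real.logb 2 (b / t) - cc)) - a * (p + r * (Real.logb 2 (a / t) - cc)) := by
  have hl2 : Real.log 2 ≠ 0 := (Real.log_pos (by norm_num)).ne'
  have hpos : ∀ s ∈ Set.uIcc a b, 0 < s := by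
    intro s hs
    exact lt_of_lt_of_le (lt_min ha hb) (Set.mem_uIcc.mp hs |>.elim (fun h => le_trans (min_le_left _ _) h.1) (fun h => le_trans (min_le_right _ _) h.1))
  have hd : ∀ s ∈ Set.uIcc a b, HasDerivAt (fun s => s * (p + r * (Real.logb 2 (s / t) - cc)))
      (p + r * Real.logb 2 (s / t)) s := by
    intro s hs
    have hs0 := hpos s hs
    have h1 : HasDerivAt (fun s => Real.logb 2 (s / t)) (cc / s) s := by
      have h2 : HasDerivAt (fun s : ℝ => s / t) (1 / t) s := (hasDerivAt_id s).div_const t
      have h3 := (h2.log (by positivity)).div_const (Real.log 2)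
      refine h3.congr_deriv ?_
      unfold cc
      field_simp
    have h5 := (hasDerivAt_id s).mul (((h1.sub_const cc).const_mul r).const_add p)
    refine (h5.congr_deriv ?_)
    simp only [id]
    field_simp
    ring
  rw [intervalIntegral.integral_eq_sub_of_hasDerivAt hd]
  apply ContinuousOn.intervalIntegrable
  apply ContinuousOn.add continuousOn_const
  apply ContinuousOn.mul continuousOn_const
  unfold Real.logb
  apply ContinuousOn.div_const
  apply ContinuousOn.log
  · fun_prop
  · intro s hs
    have := hpos s hs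
    positivity

theorem aff_int {t a b p r : ℝ} (ht : 0 < t) (ha : 0 < a) (hb : 0 < b) :
    IntervalIntegrable (fun s => p + r * Real.logb 2 (s / t)) volume a b := by
  have hpos : ∀ s ∈ Set.uIcc a b, 0 < s := by
    intro s hs
    exact lt_of_lt_of_le (lt_min ha hb) (Set.mem_uIcc.mp hs |>.elim (fun h => le_trans (min_le_left _ _) h.1) (fun h => le_trans (min_le_right _ _) h.1))
  apply ContinuousOn.intervalIntegrable
  apply ContinuousOn.add continuousOn_const
  apply ContinuousOn.mul continuousOn_const
  unfold Real.logb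
  apply ContinuousOn.div_const
  apply ContinuousOn.log
  · fun_prop
  · intro s hs
    have := hpos s hs
    positivity

/-- tangent line bound for the convex clock -/
theorem E_tangent {u v : ℝ} (hu : -15 < u) (hv : -15 < v) :
    E u + (3 / 2 * Real.sqrt (u + 15) - 7 / Real.sqrt (u + 15)) * (v - u) ≤ E v := by
  unfold E
  set s := Real.sqrt (u + 15) with hs
  set s' := Real.sqrt (v + 15) with hs'
  have h1 : s ^ 2 = u + 15 := Real.sq_sqrt (by linarith)
  have h2 : s' ^ 2 = v + 15 := Real.sq_sqrt (by linarith)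
  have hs0 : 0 < s := Real.sqrt_pos.mpr (by linarith)
  have hs0' : 0 < s' := Real.sqrt_pos.mpr (by linarith)
  have hu1 : u = s ^ 2 - 15 := by linarith
  have hv1 : v = s' ^ 2 - 15 := by linarith
  rw [hu1, hv1]
  have key : (s' ^ 2 - 15 + 1) * s' - ((s ^ 2 - 15 + 1) * s + (3 / 2 * s - 7 / s) * (s' ^ 2 - 15 - (s ^ 2 - 15)))
      = (s' - s) ^ 2 * (s' + s / 2 + 7 / s) := by
    field_simp
    ring
  have : 0 ≤ (s' - s) ^ 2 * (s' + s / 2 + 7 / s) := by positivity
  linarith

/-- lower bound of the right integral by Jensen -/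
theorem int_right_E {m x : ℝ} (hm : 0 < m) (hx : 0 < x) (hx1 : x < 1) (hL : cc ≤ - lm x) :
    E (m + (- lm x - cc)) * ((2:ℝ) ^ m * (x / (1 - x))) ≤ EE (tm m x) - EE (tt m) := by
  have ht : 0 < (2:ℝ) ^ m := by positivity
  have h1x : 0 < 1 - x := by linarith
  have htm : 0 < tm m x := by unfold tm; positivity
  have htt : 0 < tt m := by unfold tt; positivity
  have hle : tt m ≤ tm m x := by
    unfold tt tm
    rw [le_div_iff₀ h1x]; nlinarith
  rw [EE_sub htt htm]
  set l := - lm x - cc with hl
  set r := 3 / 2 * Real.sqrt (m + l + 15) - 7 / Real.sqrt (m + l + 15) with hr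
  have hl0 : 0 ≤ l := by linarith
  have hs : 3 ≤ Real.sqrt (m + l + 15) := by
    apply Real.le_sqrt_of_sq_le; linarith
  have hr0 : 0 ≤ r := by
    rw [hr, sub_nonneg, div_le_iff₀ (by linarith)]
    nlinarith
  have key : ∫ s in (tt m)..(tm m x), ((E (m + l) - r * l) + r * Real.logb 2 (s / tt m)) =
      E (m + l) * ((2:ℝ) ^ m * (x / (1 - x))) + r * ((2:ℝ) ^ m * (- lm x)) := by
    rw [int_aff htt htt htm]
    have e1 : tt m / tt m = 1 := div_self htt.ne'
    have e2 : tm m x / tt m = (1 - x)⁻¹ := by
      unfold tm tt; field_simp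
    rw [e1, e2, Real.logb_one, Real.logb_inv]
    have e3 : - Real.logb 2 (1 - x) = l + cc := by
      have : - Real.logb 2 (1 - x) = - lm x := rfl
      rw [this, hl]; ring
    have e4 : - lm x = l + cc := by rw [hl]; ring
    rw [e3, e4]
    unfold tm tt
    field_simp
    ring
  have hmono : ∫ s in (tt m)..(tm m x), ((E (m + l) - r * l) + r * Real.logb 2 (s / tt m)) ≤
      ∫ s in (tt m)..(tm m x), E (Real.logb 2 s) := by
    apply intervalIntegral.integral_mono_on hle
    · exact aff_int htt htt htm
    · exact (E_log_contOn htt htm).intervalIntegrable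
    · intro s hs
      have hs0 : 0 < s := lt_of_lt_of_le htt hs.1
      have hw : 0 ≤ Real.logb 2 (s / tt m) := by
        apply Real.logb_nonneg (by norm_num)
        rw [le_div_iff₀ htt]; linarith [hs.1]
      have he : Real.logb 2 s = m + Real.logb 2 (s / tt m) := by
        rw [Real.logb_div hs0.ne' htt.ne']
        unfold tt
        rw [Real.logb_rpow (by norm_num) (by norm_num)]
        ring
      have hE := E_tangent (u := m + l) (v := m + Real.logb 2 (s / tt m)) (by linarith) (by linarith)
      rw [he]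
      rw [← hr] at hE
      linarith
  have hpos : 0 ≤ r * ((2:ℝ) ^ m * (- lm x)) := by
    apply mul_nonneg hr0
    apply mul_nonneg ht.le
    have := lm_nonpos hx.le hx1
    linarith
  linarith

/-- upper bound of the left integral -/
theorem int_left_E {m x : ℝ} (hm : 0 < m) (hx : 0 < x) (hx1 : x < 1) :
    EE (tt m) - EE (tp m x) ≤
    (Real.sqrt (m + 15) * (m + 1)) * ((2:ℝ) ^ m * ((x - 1 / (m + 1) * (cc * x - lp x)) / (1 + x))) := by
  have ht : 0 < (2:ℝ) ^ m := by positivity
  have htp : 0 < tp m x := by unfold tp; positivity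
  have htt : 0 < tt m := by unfold tt; positivity
  have hle : tp m x ≤ tt m := by
    unfold tt tp
    rw [div_le_iff₀ (by linarith)]; nlinarith
  rw [EE_sub htp htt]
  have key : (2:ℝ) ^ m * ((x - 1 / (m + 1) * (cc * x - lp x)) / (1 + x)) =
      ∫ s in (tp m x)..(tt m), (1 + 1 / (m + 1) * Real.logb 2 (s / tt m)) := by
    rw [int_aff htt htp htt]
    have e1 : tt m / tt m = 1 := div_self htt.ne'
    have e2 : tp m x / tt m = (1 + x)⁻¹ := by
      unfold tp tt; field_simp
    rw [e1, e2, Real.logb_one, Real.logb_inv]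
    have e3 : Real.logb 2 (1 + x) = lp x := rfl
    rw [e3]
    unfold tp tt
    field_simp
    ring
  rw [key, ← intervalIntegral.integral_const_mul]
  apply intervalIntegral.integral_mono_on hle
  · exact (E_log_contOn htp htt).intervalIntegrable
  · exact (aff_int htt htp htt).const_mul _
  · intro s hs
    have hs0 : 0 < s := lt_of_lt_of_le htp hs.1
    have hw : Real.logb 2 (s / tt m) ≤ 0 := by
      apply Real.logb_nonpos (by norm_num) (by positivity)
      rw [div_le_iff₀ htt]; linarith [hs.2]
    have hw1 : -1 ≤ Real.logb 2 (s / tt m) := by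
      have : tp m x / tt m ≤ s / tt m := by
        apply div_le_div_of_nonneg_right hs.1 htt.le
      have e2 : tp m x / tt m = (1 + x)⁻¹ := by
        unfold tp tt; field_simp
      rw [e2] at this
      have h2 : (2:ℝ)⁻¹ ≤ (1 + x)⁻¹ := by
        apply inv_anti₀ (by linarith); linarith
      have h3 : Real.logb 2 (2:ℝ)⁻¹ ≤ Real.logb 2 (s / tt m) := by
        apply Real.logb_le_logb_of_le (by norm_num) (by norm_num) (h2.trans this)
      rw [Real.logb_inv, Real.logb_self_eq_one (by norm_num)] at h3
      exact h3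
    have he : Real.logb 2 s = m + Real.logb 2 (s / tt m) := by
      rw [Real.logb_div hs0.ne' htt.ne']
      unfold tt
      rw [Real.logb_rpow (by norm_num) (by norm_num)]
      ring
    rw [he, E_factor hm hw1, mul_assoc, mul_assoc]
    apply mul_le_mul_of_nonneg_left _ (Real.sqrt_nonneg _)
    apply mul_le_mul_of_nonneg_left _ (by linarith)
    set w := Real.logb 2 (s / tt m) with hwd
    have h1 : 0 ≤ 1 + 1 / (m + 1) * w := by
      have : (1 + 1 / (m + 1) * w) = (m + 1 + w) / (m + 1) := by field_simp
      rw [this]; apply div_nonneg <;> linarith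
    have h2 : Real.sqrt (1 + 1 / (m + 15) * w) ≤ 1 := by
      rw [Real.sqrt_le_one]
      have : 1 / (m + 15) * w ≤ 0 := mul_nonpos_of_nonneg_of_nonpos (by positivity) hw
      linarith
    exact mul_le_of_le_one_right h1 h2

end Pool.Agent.H40.TL
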