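import Pool.Agent.H40.TL.R2E

/-!
# Crew TL : part R2E (inequality R2 near `x = 1`), algebra
-/

set_option autoImplicit false

namespace Pool.Agent.H40.TL

open Pool.MP324

theorem cc_gt : (14426 : ℝ) / 10000 < cc := by
  unfold cc
  rw [lt_div_iff₀ (Real.log_pos (by norm_num))]
  have := Real.log_two_lt_d9
  linarith

theorem cc_lt : cc < (14427 : ℝ) / 10000 := by
  unfold cc
  rw [div_lt_iff₀ (Real.log_pos (by norm_num))]
  have := Real.log_two_gt_d9
  linarith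

/-- the final scalar inequality, small `μ` -/
theorem core_a {mu w1 d c e1 L τ : ℝ} (hmu : 0 ≤ mu) (hw1 : 0 ≤ w1) (hd : 0 ≤ d)
    (hdl : d * (L - c + e1) ≤ 376 / 10000)
    (hS : c + 188 / 10000 ≤ (1 + mu * (L - c)) * ((1 - d / 2) * τ - w1 * (1 + mu * τ)) + e1 * (1 + L * mu))
    (hq : 1 ≤ (1 + mu * (L - c)) * (1 + mu * τ)) (he1 : 0 ≤ e1) :
    2 * (1 - mu * e1) * (1 + L * mu) ≤
      (1 - mu * w1) * ((1 + mu * (L - c)) * (1 + mu * τ) * (2 - d) + d * (1 - mu * e1)) := by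
  have key : (1 - mu * w1) * ((1 + mu * (L - c)) * (1 + mu * τ) * (2 - d) + d * (1 - mu * e1))
      - 2 * (1 - mu * e1) * (1 + L * mu) =
      mu * (2 * ((1 + mu * (L - c)) * ((1 - d / 2) * τ - w1 * (1 + mu * τ)) + e1 * (1 + L * mu) - c)
        - d * (L - c + e1)) + mu * w1 * d * ((1 + mu * (L - c)) * (1 + mu * τ) - 1 + mu * e1) := by
    ring
  have h1 : 0 ≤ mu * (2 * ((1 + mu * (L - c)) * ((1 - d / 2) * τ - w1 * (1 + mu * τ)) + e1 * (1 + L * mu) - c)
        - d * (L - c + e1)) := by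
    apply mul_nonneg hmu
    linarith
  have h2 : 0 ≤ mu * w1 * d * ((1 + mu * (L - c)) * (1 + mu * τ) - 1 + mu * e1) := by
    apply mul_nonneg (by positivity)
    have : 0 ≤ mu * e1 := by positivity
    linarith
  linarith

/-- the lower bound of the main bracket on `[a, b]` -/
theorem core_S {mu w1 d c e1 L τ : ℝ} (a b T W : ℝ) (ha : 0 ≤ a) (hmu : a ≤ mu) (hmub : mu ≤ b)
    (hw1 : 0 ≤ w1) (hW : w1 ≤ W) (hd : d ≤ 20 / 4096) (hT : T ≤ τ) (hT0 : 0 ≤ T)
    (hL : 38 / 5 ≤ L) (hc : c ≤ 14427 / 10000) (he1 : 4376 / 10000 ≤ e1)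
    (hn1 : 0 ≤ T * (9975 / 10000 - b * W) - W)
    (hn2 : 14427 / 10000 + 188 / 10000 ≤
      (1 + a * (6157 / 1000)) * (T * (9975 / 10000 - b * W) - W) + 4376 / 10000 * (1 + 38 / 5 * a)) :
    c + 188 / 10000 ≤ (1 + mu * (L - c)) * ((1 - d / 2) * τ - w1 * (1 + mu * τ)) + e1 * (1 + L * mu) := by
  have hmu0 : 0 ≤ mu := ha.trans hmu
  have hW0 : 0 ≤ W := hw1.trans hW
  have hb0 : 0 ≤ b := hmu0.trans hmub
  have h1 : mu * w1 ≤ b * W := mul_le_mul hmub hW hw1 hb0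
  -- coefficient of `τ`
  have h2 : 9975 / 10000 - b * W ≤ 1 - d / 2 - mu * w1 := by linarith
  have hpos : 0 ≤ 9975 / 10000 - b * W := by
    by_contra hneg
    push Not at hneg
    have : T * (9975 / 10000 - b * W) ≤ 0 := mul_nonpos_of_nonneg_of_nonpos hT0 hneg.le
    have hW1 : W ≤ 0 := by linarith
    have : W = 0 := le_antisymm hW1 hW0
    rw [this] at hneg
    linarith
  have h3 : T * (9975 / 10000 - b * W) - W ≤ (1 - d / 2) * τ - w1 * (1 + mu * τ) := by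
    have h4 : T * (9975 / 10000 - b * W) ≤ τ * (1 - d / 2 - mu * w1) :=
      mul_le_mul hT h2 hpos (hT0.trans hT)
    nlinarith
  have h5 : 1 + a * (6157 / 1000) ≤ 1 + mu * (L - c) := by
    have : a * (6157 / 1000) ≤ mu * (L - c) := mul_le_mul hmu (by linarith) (by norm_num) hmu0
    linarith
  have h6 : (1 + a * (6157 / 1000)) * (T * (9975 / 10000 - b * W) - W) ≤
      (1 + mu * (L - c)) * ((1 - d / 2) * τ - w1 * (1 + mu * τ)) :=
    mul_le_mul h5 h3 hn1 (by nlinarith)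
  have h7 : 4376 / 10000 * (1 + 38 / 5 * a) ≤ e1 * (1 + L * mu) := by
    apply mul_le_mul he1 _ (by positivity) (by linarith)
    have : 38 / 5 * a ≤ L * mu := mul_le_mul hL hmu ha (by linarith)
    linarith
  linarith

/-- the final scalar inequality, large `μ` -/
theorem core_b {mu w' d c e1 L σ : ℝ} (hmu : 33 / 100 ≤ mu) (hd0 : 0 ≤ d) (hd : d ≤ 20 / 4096)
    (hL : 38 / 5 ≤ L) (hc : c ≤ 14427 / 10000) (he1 : 4376 / 10000 ≤ e1) (hme : mu * e1 ≤ 1)
    (hw' : 8596 / 10000 ≤ 1 - w') (hσ : 11668 / 10000 ≤ σ) :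
    2 * (1 - mu * e1) * (1 + L * mu) ≤
      (1 - w') * ((1 + mu * (L - c)) * σ * (2 - d) + d * (1 - mu * e1)) := by
  have hmu0 : 0 ≤ mu := by linarith
  have hLm : 38 / 5 * (33 / 100) ≤ L * mu := mul_le_mul hL hmu (by norm_num) (by linarith)
  have h1 : c ≤ e1 * (1 + L * mu) := by
    have : 4376 / 10000 * (1 + 38 / 5 * (33 / 100)) ≤ e1 * (1 + L * mu) := by
      apply mul_le_mul he1 (by linarith) (by norm_num) (by linarith)
    norm_num at this
    linarith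
  have h2 : (1 - mu * e1) * (1 + L * mu) ≤ 1 + mu * (L - c) := by
    have : mu * c ≤ mu * (e1 * (1 + L * mu)) := mul_le_mul_of_nonneg_left h1 hmu0
    linarith
  have hq : 0 ≤ 1 + mu * (L - c) := by
    have : 0 ≤ mu * (L - c) := mul_nonneg hmu0 (by linarith)
    linarith
  have h3 : 1 ≤ (1 - w') * σ * (1 - d / 2) := by
    have h4 : 8596 / 10000 * (11668 / 10000) ≤ (1 - w') * σ :=
      mul_le_mul hw' hσ (by norm_num) (by linarith)
    have h5 : (8596 / 10000 * (11668 / 10000)) * (1 - 10 / 4096) ≤ (1 - w') * σ * (1 - d / 2) :=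
      mul_le_mul h4 (by linarith) (by norm_num) (by linarith)
    refine le_trans ?_ h5
    norm_num
  have h4 : 0 ≤ (1 - w') * (d * (1 - mu * e1)) := by
    apply mul_nonneg (by linarith)
    apply mul_nonneg hd0
    linarith
  have h5 : (1 + mu * (L - c)) * 1 ≤ (1 + mu * (L - c)) * ((1 - w') * σ * (1 - d / 2)) :=
    mul_le_mul_of_nonneg_left h3 hq
  nlinarith

/-- lower bound of `1 - w'` on `[a, b]` -/
theorem core_w {mu w c K : ℝ} (a b W k : ℝ) (ha : 0 ≤ a) (hmu : a ≤ mu) (hmub : mu ≤ b)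
    (hw : 0 ≤ w) (hW : w ≤ W) (hW1 : W ≤ 1) (hk : k ≤ K) (hk0 : 0 ≤ k)
    (hc : 14426 / 10000 ≤ c) (hc' : c ≤ 14427 / 10000)
    (hn : 8596 / 10000 ≤ (1 - W) * (1 + 14426 / 10000 * a ^ 2 * k) - W * (14427 / 10000) * b) :
    8596 / 10000 ≤ (1 - w) + c * mu * ((1 - w) * mu * K - w) := by
  have hmu0 : 0 ≤ mu := ha.trans hmu
  have h1 : 14426 / 10000 * a ^ 2 * k ≤ c * mu ^ 2 * K := by
    apply mul_le_mul _ hk hk0 (by positivity)
    apply mul_le_mul hc _ (by positivity) (by linarith)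
    exact pow_le_pow_left₀ ha hmu 2
  have h2 : (1 - W) * (1 + 14426 / 10000 * a ^ 2 * k) ≤ (1 - w) * (1 + c * mu ^ 2 * K) := by
    apply mul_le_mul (by linarith) (by linarith) (by positivity) (by linarith)
  have h3 : w * c * mu ≤ W * (14427 / 10000) * b := by
    apply mul_le_mul _ hmub hmu0 (by nlinarith)
    apply mul_le_mul hW hc' (by linarith) (by linarith)
  nlinarith

/-- `w₁ ≤ W` -/
theorem w1_le {mu : ℝ} (b W : ℝ) (h0 : 0 ≤ mu) (hb : mu ≤ b)
    (hp : 0 ≤ W) (hW : W ≤ 1)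
    (hn : (33 / 5) * b ^ 2 ≤ W * (1 + 3 / 4 * b) ^ 3) (hb1 : b ≤ 1) :
    (33 / 5) * mu ^ 2 / (1 + 3 / 4 * mu) ^ 3 ≤ W := by
  rw [div_le_iff₀ (by positivity)]
  have hb0 : 0 ≤ b := h0.trans hb
  rcases eq_or_lt_of_le hb0 with h | h
  · have : mu = 0 := le_antisymm (by linarith) h0
    rw [this]; simp; exact hp
  -- concavity : `b * P mu ≥ (b - mu) P 0 + mu P b`
  have key : b * (W * (1 + 3 / 4 * mu) ^ 3 - (33 / 5) * mu ^ 2) =
      (b - mu) * W + mu * (W * (1 + 3 / 4 * b) ^ 3 - (33 / 5) * b ^ 2)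
      + mu * b * (b - mu) * ((33 / 5) - W * (27 / 16 + 27 / 64 * (b + mu))) := by ring
  have h1 : 0 ≤ (b - mu) * W := mul_nonneg (by linarith) hp
  have h2 : 0 ≤ mu * (W * (1 + 3 / 4 * b) ^ 3 - (33 / 5) * b ^ 2) := mul_nonneg h0 (by linarith)
  have h3 : 0 ≤ mu * b * (b - mu) * ((33 / 5) - W * (27 / 16 + 27 / 64 * (b + mu))) := by
    apply mul_nonneg
    · apply mul_nonneg (by positivity) (by linarith)
    · have : W * (27 / 16 + 27 / 64 * (b + mu)) ≤ 1 * 3 := by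
        apply mul_le_mul hW (by linarith) (by positivity) (by norm_num)
      linarith
  have h4 : 0 ≤ b * (W * (1 + 3 / 4 * mu) ^ 3 - (33 / 5) * mu ^ 2) := by rw [key]; linarith
  have h5 := nonneg_of_mul_nonneg_right h4 h
  linarith

end Pool.Agent.H40.TL
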