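import Pool.Agent.H40.TL.R2E2

/-!
# Crew TL : part R2E (inequality R2 near `x = 1`), assembly
-/

set_option autoImplicit false

namespace Pool.Agent.H40.TL

open Pool.MP324

theorem L_ge {x : ℝ} (hx : 4076 / 4096 ≤ x) (hx1 : x < 1) : 38 / 5 ≤ - lm x := by
  have h : Real.logb 2 (1 - x) ≤ -(38 / 5) := by
    rw [Real.logb_le_iff_le_rpow (by norm_num) (by linarith)]
    have h1 : (20 / 4096 : ℝ) ≤ (2:ℝ) ^ (-(38 / 5) : ℝ) := by
      rw [Real.rpow_neg (by norm_num)]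
      have h2 : (2:ℝ) ^ (38 / 5 : ℝ) ≤ 4096 / 20 := by
        have h3 : ((2:ℝ) ^ (38 / 5 : ℝ)) ^ (5:ℕ) = 2 ^ 38 := by
          rw [← Real.rpow_natCast, ← Real.rpow_mul (by norm_num)]
          norm_num
        by_contra hc
        push Not at hc
        have : ((4096:ℝ) / 20) ^ 5 ≤ ((2:ℝ) ^ (38 / 5 : ℝ)) ^ (5:ℕ) :=
          pow_le_pow_left₀ (by norm_num) hc.le 5
        rw [h3] at this
        norm_num at this
      have h4 : 0 < (2:ℝ) ^ (38 / 5 : ℝ) := by positivity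
      rw [le_inv_comm₀ (by norm_num) h4]
      refine h2.trans (by norm_num)
    linarith
  have : lm x = Real.logb 2 (1 - x) := rfl
  linarith

theorem dL_le {x : ℝ} (hx : 4076 / 4096 ≤ x) (hx1 : x < 1) : (1 - x) * (- lm x) ≤ 376 / 10000 := by
  have hd : 0 < 1 - x := by linarith
  have h2 : 0 < Real.log 2 := Real.log_pos (by norm_num)
  -- `log (δ₀/δ) ≤ δ₀/δ - 1`
  have h1 : Real.log ((20 / 4096) / (1 - x)) ≤ (20 / 4096) / (1 - x) - 1 :=
    Real.log_le_sub_one_of_pos (by positivity)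
  rw [Real.log_div (by norm_num) hd.ne'] at h1
  have h3 : Real.logb 2 (20 / 4096) ≥ -(77 / 10) := by
    rw [ge_iff_le, Real.le_logb_iff_rpow_le (by norm_num) (by norm_num)]
    rw [Real.rpow_neg (by norm_num)]
    have h4 : (4096:ℝ) / 20 ≤ (2:ℝ) ^ (77 / 10 : ℝ) := by
      have h3 : ((2:ℝ) ^ (77 / 10 : ℝ)) ^ (10:ℕ) = 2 ^ 77 := by
        rw [← Real.rpow_natCast, ← Real.rpow_mul (by norm_num)]
        norm_num
      by_contra hc
      push Not at hc
      have : ((2:ℝ) ^ (77 / 10 : ℝ)) ^ (10:ℕ) ≤ ((4096:ℝ) / 20) ^ 10 :=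
        pow_le_pow_left₀ (by positivity) hc.le 10
      rw [h3] at this
      norm_num at this
    calc ((2:ℝ) ^ (77 / 10 : ℝ))⁻¹ ≤ ((4096:ℝ) / 20)⁻¹ := inv_anti₀ (by norm_num) h4
      _ = 20 / 4096 := by norm_num
  have h4 : Real.log (20 / 4096) ≥ -(77 / 10) * Real.log 2 := by
    unfold Real.logb at h3
    rw [ge_iff_le, le_div_iff₀ h2] at h3
    exact h3
  have h5 : - lm x = - Real.log (1 - x) * cc := by
    unfold Pool.MP324.lm Real.logb cc; ring
  have hcc : Real.log 2 * cc = 1 := by unfold cc; field_simp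
  have hc0 := cc_gt
  have hc1 := cc_lt
  -- `-log δ ≤ 7.7 log 2 + δ₀/δ - 1`
  have h6 : - Real.log (1 - x) ≤ (77 / 10) * Real.log 2 + ((20 / 4096) / (1 - x) - 1) := by linarith
  have h7 : - lm x ≤ 77 / 10 + ((20 / 4096) / (1 - x) - 1) * cc := by
    rw [h5]
    have := mul_le_mul_of_nonneg_right h6 (by linarith : (0:ℝ) ≤ cc)
    have e : ((77 / 10) * Real.log 2 + ((20 / 4096) / (1 - x) - 1)) * cc =
      77 / 10 * (Real.log 2 * cc) + ((20 / 4096) / (1 - x) - 1) * cc := by ring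
    rw [e, hcc] at this
    linarith
  have h8 : (1 - x) * (- lm x) ≤ (1 - x) * (77 / 10 + ((20 / 4096) / (1 - x) - 1) * cc) :=
    mul_le_mul_of_nonneg_left h7 hd.le
  have h9 : (1 - x) * (77 / 10 + ((20 / 4096) / (1 - x) - 1) * cc) =
      77 / 10 * (1 - x) + (20 / 4096 - (1 - x)) * cc := by
    field_simp
  rw [h9] at h8
  nlinarith

/-- `1 - lp x ≥ (cc/2) (1 - x)` -/
theorem eta_ge {x : ℝ} (hx : 0 < x) : cc / 2 * (1 - x) ≤ 1 - lp x := by
  have h2 : 0 < Real.log 2 := Real.log_pos (by norm_num)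
  have h1 : Real.log ((1 + x) / 2) ≤ (1 + x) / 2 - 1 := Real.log_le_sub_one_of_pos (by positivity)
  rw [Real.log_div (by linarith) (by norm_num)] at h1
  have h5 : 1 - lp x = (Real.log 2 - Real.log (1 + x)) * cc := by
    unfold Pool.MP324.lp Real.logb cc; field_simp
  rw [h5]
  have hc := cc_gt
  nlinarith

/-- exact formula of `lp - f` -/
theorem V_formula {m x : ℝ} (hm : 0 < m) (hx : 0 < x) (hx1 : x < 1) :
    lp x - f m x = (1 - w m) * ((1 - x) * ((lp x + - lm x) / 2) * (1 + (1 / (m + 1)) * (- lm x))⁻¹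
      - (1 - x) / 2 * (- lm x) * (1 / (m + 1)) * (1 - lp x) * (1 + (1 / (m + 1)) * (- lm x))⁻¹
      + (1 + x) / 2 * lp x * (1 / (m + 1)) * (1 - lp x) * (1 - (1 / (m + 1)) * lp x)⁻¹)
      + w m * (-(1 - lp x) + (1 - x ^ 2) ^ 2) := by
  have hlp1 := lp_le_one hx hx1
  have hlm0 := lm_nonpos hx.le hx1
  have hf : f m x = (1 - w m) * J m x + w m * q x := rfl
  have hJ : J m x = m * ((1 + x) / 2 * lp x * ap m x + (1 - x) / 2 * lm x * am m x) := rfl
  have hap := ap_form m x hm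
  have ham := am_form m x hm
  have hmu : m * (1 / (m + 1)) = 1 - 1 / (m + 1) := by field_simp; ring
  have hq : q x = 2 * x ^ 2 - x ^ 4 := rfl
  have hdp : (1 - (1 / (m + 1)) * lp x) * (1 - (1 / (m + 1)) * lp x)⁻¹ = 1 := by
    apply mul_inv_cancel₀
    have : (1 / (m + 1)) * lp x < 1 := by
      rw [one_div, inv_mul_lt_iff₀ (by linarith)]
      linarith
    linarith
  have hdm : (1 + (1 / (m + 1)) * (- lm x)) * (1 + (1 / (m + 1)) * (- lm x))⁻¹ = 1 := by
    apply mul_inv_cancel₀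
    have : 0 ≤ (1 / (m + 1)) * (- lm x) := by
      apply mul_nonneg (by positivity); linarith
    linarith
  generalize hmu' : 1 / (m + 1) = mu at *
  generalize hdp' : (1 - mu * lp x)⁻¹ = dp at *
  generalize hdm' : (1 + mu * (- lm x))⁻¹ = dm at *
  generalize hl : lp x = l at *
  generalize hL : - lm x = L at *
  have hlm : lm x = - L := by linarith
  rw [hlm] at hJ
  have hJ2 : J m x = (1 - mu) * ((1 + x) / 2 * (l * dp) - (1 - x) / 2 * (L * dm)) := by
    rw [hJ, hap, ham, ← hmu]; ring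
  have hd : l - J m x = (1 - x) * ((l + L) / 2) * dm - (1 - x) / 2 * L * mu * (1 - l) * dm
      + (1 + x) / 2 * l * mu * (1 - l) * dp := by
    rw [hJ2]
    linear_combination (-(1 + x) / 2 * l) * hdp - ((1 - x) / 2 * l) * hdm
  rw [hf, hq]
  linear_combination (1 - w m) * hd

theorem T_le_sqrt {m l mu : ℝ} (b T : ℝ) (hm : 0 < m) (hmu : mu = 1 / (m + 1)) (hb : mu ≤ b)
    (hT : 0 ≤ T) (hl : 6157 / 1000 ≤ l) (hn : (2 * T + b * T ^ 2) * (1 + 14 * b) ≤ 6157 / 1000) :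
    1 + mu * T ≤ Real.sqrt (1 + 1 / (m + 15) * l) := by
  have hmu0 : 0 < mu := by rw [hmu]; positivity
  have hb0 : 0 < b := lt_of_lt_of_le hmu0 hb
  apply Real.le_sqrt_of_sq_le
  have hk : 1 / (m + 15) = mu / (1 + 14 * mu) := by
    rw [hmu]; field_simp; ring
  rw [hk]
  have h1 : (2 * T + mu * T ^ 2) * (1 + 14 * mu) ≤ (2 * T + b * T ^ 2) * (1 + 14 * b) := by
    apply mul_le_mul _ (by linarith) (by positivity) (by positivity)
    nlinarith [sq_nonneg T]
  have h2 : (2 * T + mu * T ^ 2) * (1 + 14 * mu) ≤ l := by linarith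
  have h3 : mu / (1 + 14 * mu) * l = mu * (l / (1 + 14 * mu)) := by ring
  have h4 : 2 * T + mu * T ^ 2 ≤ l / (1 + 14 * mu) := by
    rw [le_div_iff₀ (by positivity)]; exact h2
  rw [h3]
  nlinarith

theorem sigma_ge {m l mu : ℝ} (hm : 0 < m) (hmu : mu = 1 / (m + 1)) (hb : 33 / 100 ≤ mu)
    (hl : 6157 / 1000 ≤ l) :
    11668 / 10000 ≤ Real.sqrt (1 + 1 / (m + 15) * l) := by
  apply Real.le_sqrt_of_sq_le
  have hk : 1 / (m + 15) = mu / (1 + 14 * mu) := by
    rw [hmu]; field_simp; ring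
  rw [hk]
  have h1 : 33 / 562 ≤ mu / (1 + 14 * mu) := by
    rw [div_le_div_iff₀ (by norm_num) (by linarith)]; linarith
  have h2 : 33 / 562 * (6157 / 1000) ≤ mu / (1 + 14 * mu) * l :=
    mul_le_mul h1 hl (by norm_num) (le_trans (by norm_num) h1)
  refine le_trans ?_ (add_le_add_right h2 1)
  norm_num

/-- lower bound of the bracket -/
theorem K1_low {mu L a x a' k : ℝ} (hmu0 : 0 < mu) (hx : 4076 / 4096 ≤ x) (hx1 : x < 1) (hxa : x ≤ a)
    (_ha1 : a < 1) (hL : 0 ≤ L) (hdL : (1 - x) * L ≤ 376 / 10000) (hdpos : 0 < 1 - mu * a)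
    (ha' : a' ≤ mu) (hk : (k + 188 / 10000) * (1 - 99 / 100 * a') ≤ 9925 / 10000)
    (hk0 : 0 ≤ k) :
    k ≤ (1 + x) / 2 * a * (1 - mu * a)⁻¹ - (1 - x) / 2 * L * (1 + mu * L)⁻¹ := by
  have hdp0 : 0 < (1 - mu * a)⁻¹ := inv_pos.mpr hdpos
  have hdm1 : (1 + mu * L)⁻¹ ≤ 1 := by
    apply inv_le_one_of_one_le₀
    have : 0 ≤ mu * L := mul_nonneg hmu0.le hL
    linarith
  have h1 : 9925 / 10000 ≤ (1 + x) / 2 * a := by
    have h : (1 + 4076 / 4096) / 2 * (4076 / 4096) ≤ (1 + x) / 2 * a :=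
      mul_le_mul (by linarith) (by linarith) (by norm_num) (by linarith)
    refine le_trans (by norm_num) h
  have h2 : (k + 188 / 10000) ≤ (9925 / 10000) * (1 - mu * a)⁻¹ := by
    have h0 : 99 / 100 * a' ≤ mu * a := by
      have : 99 / 100 * a' ≤ 99 / 100 * mu := by linarith
      have h5 : mu * (99 / 100) ≤ mu * a := mul_le_mul_of_nonneg_left (by linarith) hmu0.le
      linarith
    have h3 : (k + 188 / 10000) * (1 - mu * a) ≤ (k + 188 / 10000) * (1 - 99 / 100 * a') := by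
      apply mul_le_mul_of_nonneg_left (by linarith) (by linarith)
    rw [← div_eq_mul_inv, le_div_iff₀ hdpos]
    exact h3.trans hk
  have h4 : (9925 / 10000) * (1 - mu * a)⁻¹ ≤ (1 + x) / 2 * a * (1 - mu * a)⁻¹ :=
    mul_le_mul_of_nonneg_right h1 hdp0.le
  have h6 : 0 ≤ (1 - x) / 2 * L := mul_nonneg (by linarith) hL
  have h7 : (1 - x) / 2 * L * (1 + mu * L)⁻¹ ≤ (1 - x) / 2 * L := mul_le_of_le_one_right h6 hdm1
  linarith

/-- the bracket inequality for small `μ` -/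
theorem hS_all {mu w1 d c e1 L τ : ℝ} (hmu0 : 0 ≤ mu) (hcase : mu ≤ 33 / 100)
    (hw1 : w1 = (33 / 5) * mu ^ 2 / (1 + 3 / 4 * mu) ^ 3)
    (hd1 : d ≤ 20 / 4096) (hL : 38 / 5 ≤ L) (hc1 : c ≤ 14427 / 10000) (he1' : 4376 / 10000 ≤ e1)
    (hTτ : ∀ b T : ℝ, mu ≤ b → 0 ≤ T → (2 * T + b * T ^ 2) * (1 + 14 * b) ≤ 6157 / 1000 → T ≤ τ) :
    c + 188 / 10000 ≤ (1 + mu * (L - c)) * ((1 - d / 2) * τ - w1 * (1 + mu * τ)) + e1 * (1 + L * mu) := by
  have hw10 : 0 ≤ w1 := by rw [hw1]; positivity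
  by_cases c1 : mu ≤ 1 / 10
  · have hW := w1_le (1 / 10) (532 / 10000) hmu0 c1 (by norm_num) (by norm_num) (by norm_num) (by norm_num)
    rw [← hw1] at hW
    exact core_S 0 (1 / 10) (12 / 10) (532 / 10000) le_rfl hmu0 c1 hw10 hW
      hd1 (hTτ (1 / 10) (12 / 10) c1 (by norm_num) (by norm_num)) (by norm_num) hL hc1 he1'
      (by norm_num) (by norm_num)
  push Not at c1
  by_cases c2 : mu ≤ 2 / 10
  · have hW := w1_le (2 / 10) (174 / 1000) hmu0 c2 (by norm_num) (by norm_num) (by norm_num) (by norm_num)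
    rw [← hw1] at hW
    exact core_S (1 / 10) (2 / 10) (75 / 100) (174 / 1000) (by norm_num) c1.le c2 hw10 hW
      hd1 (hTτ (2 / 10) (75 / 100) c2 (by norm_num) (by norm_num)) (by norm_num) hL hc1 he1'
      (by norm_num) (by norm_num)
  push Not at c2
  by_cases c3 : mu ≤ 27 / 100
  · have hW := w1_le (27 / 100) (277 / 1000) hmu0 c3 (by norm_num) (by norm_num) (by norm_num) (by norm_num)
    rw [← hw1] at hW
    exact core_S (2 / 10) (27 / 100) (595 / 1000) (277 / 1000) (by norm_num) c2.le c3 hw10 hW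
      hd1 (hTτ (27 / 100) (595 / 1000) c3 (by norm_num) (by norm_num)) (by norm_num) hL hc1 he1'
      (by norm_num) (by norm_num)
  push Not at c3
  have hW := w1_le (33 / 100) (3703 / 10000) hmu0 hcase (by norm_num) (by norm_num) (by norm_num) (by norm_num)
  rw [← hw1] at hW
  exact core_S (27 / 100) (33 / 100) (504 / 1000) (3703 / 10000) (by norm_num) c3.le hcase hw10 hW
      hd1 (hTτ (33 / 100) (504 / 1000) hcase (by norm_num) (by norm_num)) (by norm_num) hL hc1 he1'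
      (by norm_num) (by norm_num)

/-- `1 - w'` for large `μ` -/
theorem w_all {mu w w1 c K : ℝ} (hmu0 : 0 ≤ mu) (hcase : 33 / 100 ≤ mu) (hmub : mu ≤ 5013 / 10000)
    (hw1 : w1 = (33 / 5) * mu ^ 2 / (1 + 3 / 4 * mu) ^ 3) (hw : w = mu * w1)
    (hK : ∀ a' k : ℝ, a' ≤ mu → 0 ≤ a' → (k + 188 / 10000) * (1 - 99 / 100 * a') ≤ 9925 / 10000 →
      0 ≤ k → k ≤ K)
    (hc0 : 14426 / 10000 ≤ c) (hc1 : c ≤ 14427 / 10000) :
    8596 / 10000 ≤ (1 - w) + c * mu * ((1 - w) * mu * K - w) := by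
  have hw10 : 0 ≤ w1 := by rw [hw1]; positivity
  have hwpos : 0 ≤ w := by rw [hw]; positivity
  have hwle : ∀ b W : ℝ, mu ≤ b → 0 ≤ b → w1 ≤ W → w ≤ b * W := by
    intro b W h1 h2 h3
    rw [hw]
    exact mul_le_mul h1 h3 hw10 h2
  by_cases c1 : mu ≤ 4 / 10
  · have hW := w1_le (4 / 10) (4808 / 10000) hmu0 c1 (by norm_num) (by norm_num) (by norm_num) (by norm_num)
    rw [← hw1] at hW
    exact core_w (33 / 100) (4 / 10) (4 / 10 * (4808 / 10000)) (1455 / 1000) (by norm_num) hcase c1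
      hwpos (hwle _ _ c1 (by norm_num) hW) (by norm_num)
      (hK (33 / 100) (1455 / 1000) hcase (by norm_num) (by norm_num) (by norm_num))
      (by norm_num) hc0 hc1 (by norm_num)
  push Not at c1
  by_cases c2 : mu ≤ 45 / 100
  · have hW := w1_le (45 / 100) (5587 / 10000) hmu0 c2 (by norm_num) (by norm_num) (by norm_num) (by norm_num)
    rw [← hw1] at hW
    exact core_w (4 / 10) (45 / 100) (45 / 100 * (5587 / 10000)) (1624 / 1000) (by norm_num) c1.le c2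
      hwpos (hwle _ _ c2 (by norm_num) hW) (by norm_num)
      (hK (4 / 10) (1624 / 1000) c1.le (by norm_num) (by norm_num) (by norm_num))
      (by norm_num) hc0 hc1 (by norm_num)
  push Not at c2
  by_cases c3 : mu ≤ 48 / 100
  · have hW := w1_le (48 / 100) (6046 / 10000) hmu0 c3 (by norm_num) (by norm_num) (by norm_num) (by norm_num)
    rw [← hw1] at hW
    exact core_w (45 / 100) (48 / 100) (48 / 100 * (6046 / 10000)) (1771 / 1000) (by norm_num) c2.le c3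
      hwpos (hwle _ _ c3 (by norm_num) hW) (by norm_num)
      (hK (45 / 100) (1771 / 1000) c2.le (by norm_num) (by norm_num) (by norm_num))
      (by norm_num) hc0 hc1 (by norm_num)
  push Not at c3
  have hW := w1_le (5013 / 10000) (6368 / 10000) hmu0 hmub (by norm_num) (by norm_num) (by norm_num) (by norm_num)
  rw [← hw1] at hW
  exact core_w (48 / 100) (5013 / 10000) (5013 / 10000 * (6368 / 10000)) (1872 / 1000) (by norm_num) c3.le hmub
      hwpos (hwle _ _ hmub (by norm_num) hW) (by norm_num)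
      (hK (48 / 100) (1872 / 1000) c3.le (by norm_num) (by norm_num) (by norm_num))
      (by norm_num) hc0 hc1 (by norm_num)

/-- positivity of the rest term -/
theorem rho_nonneg {mu w1 K : ℝ} (b W k : ℝ) (hmu0 : 0 ≤ mu) (hb : mu ≤ b) (hw10 : 0 ≤ w1) (hW : w1 ≤ W)
    (hb0 : 0 ≤ b) (hk : k ≤ K) (hk0 : 0 ≤ k) (hbW : b * W ≤ 1) (hn : W ≤ (1 - b * W) * k) :
    0 ≤ (1 - mu * w1) * mu * K - mu * w1 := by
  have h2 : mu * w1 ≤ b * W := mul_le_mul hb hW hw10 hb0
  have h3 : (1 - b * W) * k ≤ (1 - mu * w1) * K := mul_le_mul (by linarith) hk hk0 (by linarith)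
  have h4 : w1 ≤ (1 - mu * w1) * K := hW.trans (hn.trans h3)
  have h5 := mul_le_mul_of_nonneg_left h4 hmu0
  linarith

/-- case of small `μ` -/
theorem Z_small {mu L a x w1 Z K1 : ℝ} (hmu0 : 0 < mu) (hcase : mu ≤ 33 / 100)
    (hw1 : w1 = (33 / 5) * mu ^ 2 / (1 + 3 / 4 * mu) ^ 3) (ha1 : a < 1)
    (hK : 97 / 100 ≤ K1)
    (hVK : Z = (1 - mu * w1) * ((1 - x) * ((a + L) / 2) * (1 + mu * L)⁻¹) +
      (1 - a) * ((1 - mu * w1) * mu * K1 - mu * w1) + mu * w1 * (1 - x ^ 2) ^ 2) :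
    (1 - mu * w1) * ((1 - x) * ((a + L) / 2) * (1 + mu * L)⁻¹) ≤ Z := by
  have hw10 : 0 ≤ w1 := by rw [hw1]; positivity
  have hW := w1_le (33 / 100) (3703 / 10000) hmu0.le hcase (by norm_num)
    (by norm_num) (by norm_num) (by norm_num)
  rw [← hw1] at hW
  have h1 := rho_nonneg (33 / 100) (3703 / 10000) (97 / 100) hmu0.le hcase hw10 hW (by norm_num) hK
    (by norm_num) (by norm_num) (by norm_num)
  have h6 : 0 ≤ (1 - a) * ((1 - mu * w1) * mu * K1 - mu * w1) := mul_nonneg (by linarith) h1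
  have h7 : 0 ≤ mu * w1 * (1 - x ^ 2) ^ 2 := by positivity
  linarith

/-- case of large `μ` -/
theorem Z_large {mu L a x w1 Z K1 c : ℝ} (hmu0 : 0 < mu) (hmub : mu ≤ 5013 / 10000)
    (hw1 : w1 = (33 / 5) * mu ^ 2 / (1 + 3 / 4 * mu) ^ 3) (hx1 : x < 1)
    (hLm0 : 0 < 1 + mu * L) (hdpos : 0 ≤ 1 - mu * a) (hc0 : 0 ≤ c)
    (hK : 1455 / 1000 ≤ K1) (heta : c / 2 * (1 - x) ≤ 1 - a)
    (hVK : Z = (1 - mu * w1) * ((1 - x) * ((a + L) / 2) * (1 + mu * L)⁻¹) +
      (1 - a) * ((1 - mu * w1) * mu * K1 - mu * w1) + mu * w1 * (1 - x ^ 2) ^ 2) :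
    (1 - (mu * w1 - c * mu * ((1 - mu * w1) * mu * K1 - mu * w1))) *
      ((1 - x) * ((a + L) / 2) * (1 + mu * L)⁻¹) ≤ Z := by
  have hw10 : 0 ≤ w1 := by rw [hw1]; positivity
  have hW := w1_le (5013 / 10000) (6368 / 10000) hmu0.le hmub (by norm_num)
    (by norm_num) (by norm_num) (by norm_num)
  rw [← hw1] at hW
  have hrho := rho_nonneg (5013 / 10000) (6368 / 10000) (1455 / 1000) hmu0.le hmub hw10 hW (by norm_num) hK
    (by norm_num) (by norm_num) (by norm_num)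
  generalize (1 - mu * w1) * mu * K1 - mu * w1 = ρ at *
  have h1 : c / 2 * (1 - x) * ρ ≤ (1 - a) * ρ := mul_le_mul_of_nonneg_right heta hrho
  have h2 : c * mu * ρ * ((1 - x) * ((a + L) / 2) * (1 + mu * L)⁻¹) ≤ c / 2 * (1 - x) * ρ := by
    have h3 : mu * (a + L) * (1 + mu * L)⁻¹ ≤ 1 := by
      rw [← div_eq_mul_inv, div_le_one hLm0]
      linarith
    have h4 : 0 ≤ c / 2 * (1 - x) * ρ := by
      apply mul_nonneg _ hrho
      apply mul_nonneg _ (by linarith)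
      linarith
    have h5 := mul_le_mul_of_nonneg_left h3 h4
    have h6 : c / 2 * (1 - x) * ρ * (mu * (a + L) * (1 + mu * L)⁻¹) =
      c * mu * ρ * ((1 - x) * ((a + L) / 2) * (1 + mu * L)⁻¹) := by ring
    linarith
  have h7 : 0 ≤ mu * w1 * (1 - x ^ 2) ^ 2 := by positivity
  have h8 : (1 - (mu * w1 - c * mu * ρ)) * ((1 - x) * ((a + L) / 2) * (1 + mu * L)⁻¹) =
      (1 - mu * w1) * ((1 - x) * ((a + L) / 2) * (1 + mu * L)⁻¹)
    + c * mu * ρ * ((1 - x) * ((a + L) / 2) * (1 + mu * L)⁻¹) := by ring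
  rw [h8]
  linarith

/-- the scalar inequality from the core inequality -/
theorem fin_alg {mu L a c e1 σ d w' Z : ℝ} (hd0 : 0 < d) (hd1 : d ≤ 1) (hU : 0 ≤ a + L)
    (hLm0 : 0 < 1 + mu * L) (hq0 : 0 ≤ 1 + mu * (L - c)) (hσ0 : 0 ≤ σ) (hme : mu * e1 ≤ 1)
    (hZ : (1 - w') * (d * ((a + L) / 2) * (1 + mu * L)⁻¹) ≤ Z)
    (hcore : 2 * (1 - mu * e1) * (1 + L * mu) ≤
      (1 - w') * ((1 + mu * (L - c)) * σ * (2 - d) + d * (1 - mu * e1))) :
    (a + L - Z) * (1 - mu * e1) * d ≤ Z * ((1 + mu * (L - c)) * σ) * (2 - d) := by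
  have hB : 0 ≤ (1 + mu * (L - c)) * σ * (2 - d) + d * (1 - mu * e1) := by
    have h1 : 0 ≤ (1 + mu * (L - c)) * σ * (2 - d) := by
      apply mul_nonneg (mul_nonneg hq0 hσ0); linarith
    have h2 : 0 ≤ d * (1 - mu * e1) := mul_nonneg hd0.le (by linarith)
    linarith
  have hi : 0 ≤ (1 + mu * L)⁻¹ := (inv_pos.mpr hLm0).le
  have h1 := mul_le_mul_of_nonneg_right hZ hB
  have h2 := mul_le_mul_of_nonneg_left hcore
    (mul_nonneg (mul_nonneg hd0.le (by linarith : 0 ≤ (a + L) / 2)) hi)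
  have h3 : d * ((a + L) / 2) * (1 + mu * L)⁻¹ * (2 * (1 - mu * e1) * (1 + L * mu)) =
      (a + L) * (1 - mu * e1) * d := by
    have : (1 + mu * L)⁻¹ * (1 + L * mu) = 1 := by
      rw [mul_comm L mu]; exact inv_mul_cancel₀ hLm0.ne'
    linear_combination (d * (a + L) * (1 - mu * e1)) * this
  rw [h3] at h2
  linarith

/-- the scalar inequality -/
theorem core_all {mu L a c x σ w1 Z : ℝ} (hmu0 : 0 < mu) (hmub : mu ≤ 5013 / 10000)
    (hL : 38 / 5 ≤ L) (hc0 : 14426 / 10000 < c) (hc1 : c < 14427 / 10000)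
    (hx : 4076 / 4096 ≤ x) (hx1 : x < 1) (hxa : x ≤ a) (ha1 : a < 1)
    (hdL : (1 - x) * L ≤ 376 / 10000) (heta : c / 2 * (1 - x) ≤ 1 - a)
    (hw1 : w1 = (33 / 5) * mu ^ 2 / (1 + 3 / 4 * mu) ^ 3)
    (hT : ∀ b T : ℝ, mu ≤ b → 0 ≤ T → (2 * T + b * T ^ 2) * (1 + 14 * b) ≤ 6157 / 1000 → 1 + mu * T ≤ σ)
    (hσb : 33 / 100 ≤ mu → 11668 / 10000 ≤ σ)
    (hV : Z = (1 - mu * w1) * ((1 - x) * ((a + L) / 2) * (1 + mu * L)⁻¹
      - (1 - x) / 2 * L * mu * (1 - a) * (1 + mu * L)⁻¹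
      + (1 + x) / 2 * a * mu * (1 - a) * (1 - mu * a)⁻¹)
      + mu * w1 * (-(1 - a) + (1 - x ^ 2) ^ 2)) :
    (a + L - Z) * (1 - mu * (c - a / x)) * (1 - x) ≤ Z * ((1 + mu * (L - c)) * σ) * (2 - (1 - x)) := by
  have hx0 : 0 < x := by linarith
  have hdpos : 0 < 1 - mu * a := by
    have : mu * a ≤ mu * 1 := mul_le_mul_of_nonneg_left ha1.le hmu0.le
    linarith
  have hLm0 : 0 < 1 + mu * L := by
    have : 0 ≤ mu * L := mul_nonneg hmu0.le (by linarith)
    linarith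
  have hVK : Z = (1 - mu * w1) * ((1 - x) * ((a + L) / 2) * (1 + mu * L)⁻¹) +
      (1 - a) * ((1 - mu * w1) * mu * ((1 + x) / 2 * a * (1 - mu * a)⁻¹ - (1 - x) / 2 * L * (1 + mu * L)⁻¹)
       - mu * w1) + mu * w1 * (1 - x ^ 2) ^ 2 := by
    rw [hV]; ring
  have hK1low : ∀ a' k : ℝ, a' ≤ mu → 0 ≤ a' → (k + 188 / 10000) * (1 - 99 / 100 * a') ≤ 9925 / 10000 →
      0 ≤ k → k ≤ (1 + x) / 2 * a * (1 - mu * a)⁻¹ - (1 - x) / 2 * L * (1 + mu * L)⁻¹ := by
    intro a' k h1 _ h3 h4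
    exact K1_low hmu0 hx hx1 hxa ha1 (by linarith) hdL hdpos h1 h3 h4
  clear hV
  generalize (1 + x) / 2 * a * (1 - mu * a)⁻¹ - (1 - x) / 2 * L * (1 + mu * L)⁻¹ = K1 at *
  have hw10 : 0 ≤ w1 := by rw [hw1]; positivity
  have hax : a / x ≤ 4096 / 4076 := by
    rw [div_le_iff₀ hx0]; linarith
  have hax0 : 0 ≤ a / x := div_nonneg (by linarith) hx0.le
  have he1' : 4376 / 10000 ≤ c - a / x := by linarith
  have he1'' : c - a / x ≤ c := by linarith
  generalize c - a / x = e1 at *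
  have hme : mu * e1 ≤ 1 := by
    have : mu * e1 ≤ (5013 / 10000) * (14427 / 10000) :=
      mul_le_mul hmub (by linarith) (by linarith) (by norm_num)
    linarith
  have hd0 : 0 < 1 - x := by linarith
  have hd1 : 1 - x ≤ 20 / 4096 := by linarith
  have hdl : (1 - x) * (L - c + e1) ≤ 376 / 10000 := by
    have : (1 - x) * (L - c + e1) ≤ (1 - x) * L := mul_le_mul_of_nonneg_left (by linarith) hd0.le
    linarith
  have hq0 : 0 ≤ 1 + mu * (L - c) := by
    have : 0 ≤ mu * (L - c) := mul_nonneg hmu0.le (by linarith)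
    linarith
  have hσ1 : 1 ≤ σ := by
    have := hT (5013 / 10000) 0 hmub le_rfl (by norm_num)
    linarith
  by_cases hcase : mu ≤ 33 / 100
  · have hZ := Z_small hmu0 hcase hw1 ha1
      (hK1low 0 (97 / 100) hmu0.le le_rfl (by norm_num) (by norm_num)) hVK
    apply fin_alg hd0 (by linarith) (by linarith) hLm0 hq0 (by linarith) hme hZ
    have hστ : σ = 1 + mu * ((σ - 1) / mu) := by field_simp; ring
    have hTτ : ∀ b T : ℝ, mu ≤ b → 0 ≤ T → (2 * T + b * T ^ 2) * (1 + 14 * b) ≤ 6157 / 1000 →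
        T ≤ (σ - 1) / mu := by
      intro b T hb hT' hn
      have := hT b T hb hT' hn
      rw [le_div_iff₀ hmu0]
      linarith
    have hS := hS_all hmu0.le hcase hw1 hd1 hL hc1.le he1' hTτ
    have hq1 : 1 ≤ (1 + mu * (L - c)) * (1 + mu * ((σ - 1) / mu)) := by
      rw [← hστ]
      have h1 : 0 ≤ mu * (L - c) := mul_nonneg hmu0.le (by linarith)
      nlinarith
    have := core_a hmu0.le hw10 hd0.le hdl hS hq1 (by linarith)
    rw [← hστ] at this
    exact this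
  · push Not at hcase
    have hZ := Z_large hmu0 hmub hw1 hx1 hLm0 hdpos.le (by linarith)
      (hK1low (33 / 100) (1455 / 1000) hcase.le (by norm_num) (by norm_num) (by norm_num)) heta hVK
    apply fin_alg hd0 (by linarith) (by linarith) hLm0 hq0 (by linarith) hme hZ
    apply core_b hcase.le hd0.le hd1 hL hc1.le he1' hme _ (hσb hcase.le)
    have h := w_all hmu0.le hcase.le hmub hw1 rfl hK1low hc0.le hc1.le
    linarith

theorem R2E_proved : ∀ m x : ℝ, 0 < m → 4076 / 4096 ≤ x → x < 1 → x ≤ (2:ℝ) ^ m - 1 →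
    (f m x - lm x) * (EE (tt m) - EE (tp m x)) ≤ (lp x - f m x) * (EE (tm m x) - EE (tt m)) := by
  intro m x hm hx hx1 hdom
  have hx0 : 0 < x := by linarith
  have hL := L_ge hx hx1
  have hdL := dL_le hx hx1
  have hlp1 := lp_le_one hx0 hx1
  have hxl := x_le_lp hx0.le hx1.le
  have hc0 := cc_gt
  have hc1 := cc_lt
  -- `lp x ≤ m`
  have hlpm : lp x ≤ m := by
    unfold Pool.MP324.lp
    rw [Real.logb_le_iff_le_rpow (by norm_num) (by linarith)]
    linarith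
  have hm0 : m0 ≤ m := by
    unfold m0
    rw [Real.logb_le_iff_le_rpow (by norm_num) (by norm_num)]
    linarith
  have hmu0 : 0 < 1 / (m + 1) := by positivity
  have hmub : 1 / (m + 1) ≤ 5013 / 10000 := by
    rw [div_le_iff₀ (by linarith)]
    linarith
  have hwf : w m = (1 / (m + 1)) * ((33 / 5) * (1 / (m + 1)) ^ 2 / (1 + 3 / 4 * (1 / (m + 1))) ^ 3) := by
    unfold w
    have h1 : (m + 7 / 4) ≠ 0 := by positivity
    have h3 : 1 + 3 / 4 * (1 / (m + 1)) = (m + 7 / 4) / (m + 1) := by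
      field_simp; ring
    rw [h3]
    field_simp
  have hV := V_formula hm hx0 hx1
  rw [hwf] at hV
  have hfin := core_all (σ := Real.sqrt (1 + 1 / (m + 15) * (- lm x - cc))) hmu0 hmub hL hc0 hc1 hx hx1 hxl hlp1 hdL
    (eta_ge hx0) rfl
    (fun b T hb hT hn => T_le_sqrt b T hm rfl hb hT (by linarith) hn)
    (fun hb => sigma_ge hm rfl hb (by linarith)) hV
  obtain ⟨hf1, hf2⟩ := f_le_lp hm0 hx0 hx1 hdom
  have hR := int_right_E hm hx0 hx1 (by linarith)
  have hLe := int_left_E hm hx0 hx1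
  have hE : E (m + (- lm x - cc)) = (Real.sqrt (m + 15) * (m + 1)) *
      ((1 + 1 / (m + 1) * (- lm x - cc)) * Real.sqrt (1 + 1 / (m + 15) * (- lm x - cc))) :=
    E_factor hm (by linarith)
  rw [hE] at hR
  have hA0 : 0 < Real.sqrt (m + 15) * (m + 1) := by
    have : 0 < Real.sqrt (m + 15) := Real.sqrt_pos.mpr (by linarith)
    positivity
  have ht : 0 < (2:ℝ) ^ m := by positivity
  have hd : 0 < 1 - x := by linarith
  generalize Real.sqrt (m + 15) * (m + 1) = A at *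
  generalize (1 + 1 / (m + 1) * (- lm x - cc)) * Real.sqrt (1 + 1 / (m + 15) * (- lm x - cc)) = B at *
  generalize (2:ℝ) ^ m = t at *
  generalize EE (tt m) - EE (tp m x) = I1 at *
  generalize EE (tm m x) - EE (tt m) = I2 at *
  generalize 1 / (m + 1) = mu at *
  generalize f m x = F at *
  have e2 : x - mu * (cc * x - lp x) = x * (1 - mu * (cc - lp x / x)) := by
    field_simp
  rw [e2] at hLe
  generalize (1 - mu * (cc - lp x / x)) = B1 at *
  have e3 : lp x + - lm x - (lp x - F) = F - lm x := by ring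
  rw [e3] at hfin
  generalize lm x = ml at *
  generalize lp x = pl at *
  refine (mul_le_mul_of_nonneg_left hLe (by linarith)).trans
    (le_trans ?_ (mul_le_mul_of_nonneg_left hR (by linarith)))
  have h1x : 0 < 1 + x := by linarith
  have key : (pl - F) * (A * B * (t * (x / (1 - x))))
      - (F - ml) * (A * (t * (x * B1 / (1 + x)))) =
      (A * t * x) / ((1 - x) * (1 + x)) *
      ((pl - F) * B * (2 - (1 - x)) - (F - ml) * B1 * (1 - x)) := by
    have : 2 - (1 - x) = 1 + x := by ring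
    rw [this]
    field_simp
  have : 0 ≤ (A * t * x) / ((1 - x) * (1 + x)) *
      ((pl - F) * B * (2 - (1 - x)) - (F - ml) * B1 * (1 - x)) := by
    apply mul_nonneg (by positivity)
    linarith
  linarith

end Pool.Agent.H40.TL
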