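import Pool.Agent.H40.TL.Cube
import Pool.Agent.H77.TL.Stm

set_option autoImplicit false

namespace Pool.Agent.H40.TL

open Finset Function
open Pool.MP324 (bias mm)

variable {n : ℕ}

/-- Indicator of a set. -/
noncomputable def ind (B : Finset (Fin n → Bool)) : (Fin n → Bool) → ℝ := fun z => if z ∈ B then 1 else 0

/-- The set restricted to `z_i = c`, as a cylinder. -/
def cyl (i : Fin n) (c : Bool) (B : Finset (Fin n → Bool)) : Finset (Fin n → Bool) :=
  Finset.univ.filter (fun z => update z i c ∈ B)

/-- Measure. -/
noncomputable def mu (B : Finset (Fin n → Bool)) : ℝ := (B.card : ℝ) / 2 ^ n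

lemma E_ind (B : Finset (Fin n → Bool)) : E (ind B) = mu B := by
  unfold E ind mu
  simp

lemma R_ind (i : Fin n) (c : Bool) (B : Finset (Fin n → Bool)) : R i c (ind B) = ind (cyl i c B) := by
  funext z
  simp [R, ind, cyl]

lemma ind_compl (B : Finset (Fin n → Bool)) : ind Bᶜ = fun z => 1 - ind B z := by
  funext z
  by_cases h : z ∈ B <;> simp [ind, h]

lemma mu_nonneg (B : Finset (Fin n → Bool)) : 0 ≤ mu B := by unfold mu; positivity

lemma mu_le_one (B : Finset (Fin n → Bool)) : mu B ≤ 1 := by
  unfold mu
  rw [div_le_one (by positivity)]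
  have := Finset.card_le_univ B
  simp only [Fintype.card_pi, Fintype.card_bool, Finset.prod_const, Finset.card_univ,
    Fintype.card_fin] at this
  exact_mod_cast this

lemma mu_compl (B : Finset (Fin n → Bool)) : mu Bᶜ = 1 - mu B := by
  rw [← E_ind, ind_compl, E_one_sub, E_ind]

lemma mu_cyl (i : Fin n) (c : Bool) (B : Finset (Fin n → Bool)) :
    mu (cyl i c B) = 2 * ((B.filter (fun z => z i = c)).card : ℝ) / 2 ^ n := by
  have h := E_avg i (ind (B.filter (fun z => z i = c)))
  rw [E_ind] at h
  have h1 : R i c (ind (B.filter (fun z => z i = c))) = R i c (ind B) := by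
    funext z
    simp [R, ind]
  have h2 : R i (!c) (ind (B.filter (fun z => z i = c))) = fun _ => 0 := by
    funext z
    simp [R, ind]
  have h3 : E (R i (!c) (ind (B.filter (fun z => z i = c)))) = 0 := by rw [h2, E_const]
  have h4 : E (R i c (ind (B.filter (fun z => z i = c)))) = mu (cyl i c B) := by
    rw [h1, R_ind, E_ind]
  have h5 : (mu (cyl i c B) + 0) / 2 = mu (B.filter (fun z => z i = c)) := by
    cases c
    · rw [h, h4]
      simp only [Bool.not_false] at h3
      rw [h3]; ring
    · rw [h, h4]
      simp only [Bool.not_true] at h3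
      rw [h3]
  have : mu (cyl i c B) = 2 * mu (B.filter (fun z => z i = c)) := by linarith
  rw [this, mu]; ring

lemma card_split (i : Fin n) (B : Finset (Fin n → Bool)) :
    ((B.filter (fun z => z i = true)).card : ℝ) + ((B.filter (fun z => z i = false)).card : ℝ) =
      (B.card : ℝ) := by
  have h := Finset.card_filter_add_card_filter_not (s := B) (fun z => z i = true)
  have h2 : (B.filter (fun z => ¬ z i = true)) = B.filter (fun z => z i = false) := by
    apply Finset.filter_congr
    intro z _
    simp
  rw [h2] at h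
  exact_mod_cast h

lemma mu_cyl_true (i : Fin n) (B : Finset (Fin n → Bool)) :
    mu (cyl i true B) = mu B * (1 + bias B i) := by
  rw [mu_cyl]
  by_cases h0 : (B.card : ℝ) = 0
  · have : B = ∅ := by
      apply Finset.card_eq_zero.mp; exact_mod_cast h0
    subst this; simp [mu]
  · unfold mu bias
    rw [← card_split i B] at h0 ⊢
    field_simp
    ring

lemma mu_cyl_false (i : Fin n) (B : Finset (Fin n → Bool)) :
    mu (cyl i false B) = mu B * (1 - bias B i) := by
  rw [mu_cyl]
  by_cases h0 : (B.card : ℝ) = 0
  · have : B = ∅ := by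
      apply Finset.card_eq_zero.mp; exact_mod_cast h0
    subst this; simp [mu]
  · unfold mu bias
    rw [← card_split i B] at h0 ⊢
    field_simp
    ring

lemma abs_bias_le_one (B : Finset (Fin n → Bool)) (i : Fin n) : |bias B i| ≤ 1 := by
  by_cases h0 : (B.card : ℝ) = 0
  · unfold bias; rw [h0]; simp
  · have hpos : (0:ℝ) < B.card := lt_of_le_of_ne (by positivity) (Ne.symm h0)
    unfold bias
    rw [abs_div, abs_of_pos hpos, div_le_one hpos, ← card_split i B, abs_le]
    constructor
    · have : (0:ℝ) ≤ ((B.filter (fun z => z i = true)).card : ℝ) := by positivity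
      linarith
    · have : (0:ℝ) ≤ ((B.filter (fun z => z i = false)).card : ℝ) := by positivity
      linarith

/-- The sign of coordinate `i`. -/
def chi (i : Fin n) (z : Fin n → Bool) : ℝ := if z i = true then 1 else -1

lemma E_chi (i : Fin n) (g : (Fin n → Bool) → ℝ) : E (fun z => g z * chi i z) = E (D i g) := by
  rw [E_D, E_avg i]
  have h1 : R i true (fun z => g z * chi i z) = R i true g := by
    funext z; simp [R, chi]
  have h2 : R i false (fun z => g z * chi i z) = fun z => (-1) * R i false g z := by
    funext z; simp [R, chi]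
  rw [h1, h2, E_mul]; ring

lemma E_chi_chi (i j : Fin n) : E (fun z => chi i z * chi j z) = if i = j then 1 else 0 := by
  split_ifs with h
  · subst h
    have : (fun z : Fin n → Bool => chi i z * chi i z) = fun _ => 1 := by
      funext z; unfold chi; split_ifs <;> norm_num
    rw [this, E_const]
  · rw [E_avg i]
    have h1 : R i true (fun z => chi i z * chi j z) = fun z => chi j z := by
      funext z; simp [R, chi, Function.update_of_ne (Ne.symm h)]
    have h2 : R i false (fun z => chi i z * chi j z) = fun z => (-1) * chi j z := by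
      funext z; simp [R, chi, Function.update_of_ne (Ne.symm h)]
    rw [h1, h2, E_mul]; ring

/-- Negate all coordinates. -/
def neg : Equiv.Perm (Fin n → Bool) where
  toFun z := fun i => !(z i)
  invFun z := fun i => !(z i)
  left_inv z := by funext i; simp
  right_inv z := by funext i; simp

lemma E_neg (g : (Fin n → Bool) → ℝ) : E (fun z => g (neg z)) = E g := by
  unfold E
  rw [Equiv.sum_comp neg g]

lemma E_add (g h : (Fin n → Bool) → ℝ) : E (fun z => g z + h z) = E g + E h := by
  unfold E
  rw [Finset.sum_add_distrib]; ring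

lemma E_sum {ι : Type*} (s : Finset ι) (g : ι → (Fin n → Bool) → ℝ) :
    E (fun z => ∑ i ∈ s, g i z) = ∑ i ∈ s, E (g i) := by
  unfold E
  rw [Finset.sum_comm, Finset.sum_div]

lemma W1_le (B : Finset (Fin n → Bool)) :
    ∑ i, (E (D i (ind B))) ^ 2 ≤ E (fun z => ((ind B z - ind B (neg z)) / 2) ^ 2) := by
  set d : Fin n → ℝ := fun i => E (D i (ind B)) with hd
  set s := ∑ i, (d i) ^ 2 with hs
  -- linear function
  set l : (Fin n → Bool) → ℝ := fun z => ∑ i, d i * chi i z with hl
  have hl2 : E (fun z => (l z) ^ 2) = s := by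
    have : (fun z => (l z) ^ 2) = fun z => ∑ i, ∑ j, (d i * d j) * (chi i z * chi j z) := by
      funext z
      rw [hl]
      simp only [sq, Finset.sum_mul_sum]
      apply Finset.sum_congr rfl; intro i _
      apply Finset.sum_congr rfl; intro j _
      ring
    rw [this, E_sum]
    have h2 : ∀ i, E (fun z => ∑ j, (d i * d j) * (chi i z * chi j z)) = d i ^ 2 := by
      intro i
      rw [E_sum]
      have : ∀ j, E (fun z => (d i * d j) * (chi i z * chi j z)) = if i = j then d i ^ 2 else 0 := by
        intro j
        rw [E_mul, E_chi_chi]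
        split_ifs with h
        · subst h; ring
        · ring
      simp_rw [this]
      simp
    simp_rw [h2]
    rfl
  have h1 : E (fun z => ind B z * l z) = s := by
    have : (fun z => ind B z * l z) = fun z => ∑ i, d i * (ind B z * chi i z) := by
      funext z
      rw [hl]
      simp only [Finset.mul_sum]
      apply Finset.sum_congr rfl; intro i _; ring
    rw [this, E_sum]
    simp_rw [E_mul, E_chi]
    rw [hs]
    apply Finset.sum_congr rfl; intro i _
    rw [hd]; ring
  have hchi : ∀ (i : Fin n) z, chi i (neg z) = - chi i z := by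
    intro i z
    have hn : neg z i = !(z i) := rfl
    unfold chi
    rw [hn]
    by_cases h : z i = true
    · simp [h]
    · have h' : z i = false := by simpa using h
      simp [h']
  have hlneg : ∀ z, l (neg z) = - l z := by
    intro z
    rw [hl]; simp only [hchi, mul_neg, Finset.sum_neg_distrib]
  have h2 : E (fun z => ind B (neg z) * l z) = - s := by
    have e := E_neg (fun z => ind B z * l z)
    rw [h1] at e
    have : (fun z => ind B (neg z) * l (neg z)) = fun z => (-1) * (ind B (neg z) * l z) := by
      funext z; rw [hlneg]; ring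
    rw [this, E_mul] at e
    linarith
  have h3 : E (fun z => ((ind B z - ind B (neg z)) / 2) * l z) = s := by
    have : (fun z => ((ind B z - ind B (neg z)) / 2) * l z) =
        fun z => (1/2) * (ind B z * l z) + (-1/2) * (ind B (neg z) * l z) := by
      funext z; ring
    rw [this, E_add, E_mul, E_mul, h1, h2]; ring
  have h4 : E (fun z => ((ind B z - ind B (neg z)) / 2) * l z) ≤
      E (fun z => (1/2) * (((ind B z - ind B (neg z)) / 2) ^ 2) + (1/2) * (l z) ^ 2) := by
    apply E_mono
    intro z
    nlinarith [sq_nonneg (((ind B z - ind B (neg z)) / 2) - l z)]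
  rw [E_add, E_mul, E_mul, hl2, h3] at h4
  linarith

lemma W1_le_half (B : Finset (Fin n → Bool)) :
    ∑ i, (E (D i (ind B))) ^ 2 ≤ mu B / 2 := by
  refine (W1_le B).trans ?_
  have h : E (fun z => ((ind B z - ind B (neg z)) / 2) ^ 2) ≤
      E (fun z => (1/4) * ind B z + (1/4) * ind B (neg z)) := by
    apply E_mono
    intro z
    unfold ind
    split_ifs <;> norm_num
  rw [E_add, E_mul, E_mul, E_neg (ind B), E_ind] at h
  linarith

lemma E_D_ind (B : Finset (Fin n → Bool)) (i : Fin n) : E (D i (ind B)) = mu B * bias B i := by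
  rw [E_D, R_ind, R_ind, E_ind, E_ind, mu_cyl_true, mu_cyl_false]; ring

/-- `sum x_i^2 <= 1/(2 mu)`. -/
lemma sum_bias_sq (B : Finset (Fin n → Bool)) (hB : 0 < mu B) :
    ∑ i, (bias B i) ^ 2 ≤ 1 / (2 * mu B) := by
  have h := W1_le_half B
  simp_rw [E_D_ind, mul_pow] at h
  rw [← Finset.mul_sum] at h
  rw [le_div_iff₀ (by positivity)]
  have : mu B ^ 2 * ∑ i, (bias B i) ^ 2 * 2 ≤ mu B := by
    rw [← Finset.sum_mul]; linarith
  nlinarith [this, Finset.sum_nonneg (fun i (_ : i ∈ Finset.univ) => sq_nonneg (bias B i)),
    mul_pos hB hB, show mu B * ((∑ i, (bias B i) ^ 2) * (2 * mu B)) ≤ mu B * 1 by nlinarith]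

end Pool.Agent.H40.TL
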